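import Pool.Agent.Lib_helper16.SD.Pluennecke

/-!
# Minimal cuts of a commutative graph
-/

set_option autoImplicit false

open Finset Function
open scoped Pointwise

open Pool.Agent.Lib_helper16.SD

namespace Pool.Agent.Lib_helper37.RD

section

variable {G : Type*} [AddCancelCommMonoid G] [DecidableEq G]

/-- The level `j` is not cheaper than a cut in the levels `0` and `h`. -/
theorem cut (A B : Finset G) (al : ℕ → G → Prop)
    (hal : ∀ j x b, b ∈ B → al (j + 1) (x + b) → al j x) (h : ℕ) (hh : 0 < h) (C : ℝ) (hC : 0 < C)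
    (j : ℕ) (hj : j ≤ h) :
    ∃ P0 ⊆ A, ((A \ P0).card : ℝ) + C⁻¹ ^ h * ((It B al h P0).card : ℝ) ≤
      C⁻¹ ^ j * ((It B al j A).card : ℝ) := by
  classical
  obtain ⟨w, hw⟩ : ∃ w, w = C⁻¹ := ⟨_, rfl⟩
  rw [← hw]
  have hw0 : 0 < w := by rw [hw]; exact inv_pos.mpr hC
  obtain ⟨P, hP, hmin, hmax⟩ := exists_opt A B al h w
  rw [hw] at hmin hmax
  have hcl := fun i hi => opt_closed A B al hal h C hC P hP hmin hmax i hi
  rw [← hw] at hmin hmax
  have hIt : ∀ i, i < h → It B al i (P 0) ⊆ P i := by
    intro i
    induction i with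
    | zero => intro _; exact subset_refl _
    | succ i ih =>
      intro hi
      exact (Im_mono (ih (by omega))).trans (hcl i hi)
  obtain ⟨h', rfl⟩ : ∃ h', h = h' + 1 := ⟨h - 1, by omega⟩
  have hR : It B al (h' + 1) (P 0) ⊆ Rch A B al P (h' + 1) := Im_mono (hIt h' (by omega))
  have hP0 : P 0 ⊆ A := hP.1 0
  refine ⟨P 0, hP0, ?_⟩
  -- lower bound for the minimal cost
  have hlow : ((A \ P 0).card : ℝ) + w ^ (h' + 1) * ((It B al (h' + 1) (P 0)).card : ℝ) ≤
      cost A B al (h' + 1) w P := by
    have h1 : w ^ 0 * ((Rch A B al P 0 \ P 0).card : ℝ) +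
        w ^ (h' + 1) * ((Rch A B al P (h' + 1) \ P (h' + 1)).card : ℝ)
        ≤ cost A B al (h' + 1) w P := by
      unfold cost
      rw [Finset.sum_range_succ, Finset.sum_range_succ']
      have : 0 ≤ ∑ k ∈ range h', w ^ (k + 1) * ((Rch A B al P (k + 1) \ P (k + 1)).card : ℝ) :=
        Finset.sum_nonneg (fun k _ => mul_nonneg (pow_pos hw0 _).le (Nat.cast_nonneg _))
      linarith
    have h2 : Rch A B al P 0 = A := rfl
    rw [h2, pow_zero, one_mul, hP.2 (h' + 1) (le_refl _), Finset.sdiff_empty] at h1
    have h5 : ((It B al (h' + 1) (P 0)).card : ℝ) ≤ ((Rch A B al P (h' + 1)).card : ℝ) := by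
      exact_mod_cast Finset.card_le_card hR
    have h6 := mul_le_mul_of_nonneg_left h5 (pow_pos hw0 (h' + 1)).le
    linarith
  -- the test cut
  obtain ⟨P', hP'⟩ : ∃ P' : ℕ → Finset G, P' = fun i => if i < j then It B al i A else ∅ := ⟨_, rfl⟩
  have hadm : Adm A B al (h' + 1) P' := by
    constructor
    · intro i
      simp only [hP']
      split_ifs
      · exact subset_refl _
      · exact Finset.empty_subset _
    · intro i hi
      simp only [hP']
      rw [if_neg (by omega)]
  have hc := hmin P' hadm
  have hcost : cost A B al (h' + 1) w P' = w ^ j * ((It B al j A).card : ℝ) := by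
    unfold cost
    rw [Finset.sum_eq_single_of_mem j (by rw [Finset.mem_range]; omega)]
    · congr 2
      have e1 : P' j = ∅ := by simp [hP']
      rw [e1, Finset.sdiff_empty]
      cases j with
      | zero => rfl
      | succ j =>
        have : P' j = It B al j A := by simp [hP']
        simp only [Rch]
        rw [this]
        rfl
    · intro i _ hij
      rcases lt_or_gt_of_ne hij with hlt | hgt
      · have e1 : P' i = It B al i A := by simp [hP', hlt]
        have e2 : Rch A B al P' i = It B al i A := by
          cases i with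
          | zero => rfl
          | succ i =>
            have : P' i = It B al i A := by
              simp only [hP']
              rw [if_pos (by omega)]
            simp only [Rch]
            rw [this]
            rfl
        rw [e1, e2]
        simp
      · obtain ⟨i, rfl⟩ : ∃ i', i = i' + 1 := ⟨i - 1, by omega⟩
        have e1 : P' i = ∅ := by
          simp only [hP']
          rw [if_neg (by omega)]
        simp only [Rch]
        rw [e1, Im_empty]
        simp
  rw [hcost] at hc
  linarith

end

/-- The iterated image is the sumset without the dead elements. -/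
theorem mem_It' {B : Finset ℕ} {al : ℕ → ℕ → Prop}
    (hal : ∀ j x b, b ∈ B → al (j + 1) (x + b) → al j x) (Y : Finset ℕ) (j x : ℕ) :
    x ∈ It B al j Y ↔ x ∈ Y + j • B ∧ (j = 0 ∨ al j x) := by
  induction j generalizing x with
  | zero =>
    simp only [It, zero_nsmul, add_zero, true_or, and_true]
  | succ j ih =>
    simp only [It]
    rw [mem_Im]
    constructor
    · rintro ⟨⟨u, hu, b, hb, e⟩, ha⟩
      rw [ih] at hu
      refine ⟨?_, Or.inr ha⟩
      rw [succ_nsmul, ← add_assoc, ← e]
      exact Finset.add_mem_add hu.1 hb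
    · rintro ⟨h1, h2⟩
      rcases h2 with h2 | h2
      · omega
      · rw [succ_nsmul, ← add_assoc, Finset.mem_add] at h1
        obtain ⟨u, hu, b, hb, e⟩ := h1
        refine ⟨⟨u, ?_, b, hb, e⟩, h2⟩
        rw [ih]
        exact ⟨hu, Or.inr (hal j u b hb (by rw [e]; exact h2))⟩

end Pool.Agent.Lib_helper37.RD
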