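import Mathlib

/-!
# The rows of a sumset in the plane
-/

set_option autoImplicit false

open Pointwise Finset

namespace Pool.Agent.Lib_helper37.RD

/-- Row `r` of a set of pairs. -/
def row (S : Finset (ℕ × ℕ)) (r : ℕ) : Finset ℕ := (S.filter fun q => q.2 = r).image Prod.fst

theorem mem_row {S : Finset (ℕ × ℕ)} {r x : ℕ} : x ∈ row S r ↔ (x, r) ∈ S := by
  simp only [row, Finset.mem_image, Finset.mem_filter]
  constructor
  · rintro ⟨q, ⟨h1, h2⟩, h3⟩
    rw [← h2, ← h3]
    exact h1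
  · intro h
    exact ⟨(x, r), ⟨h, rfl⟩, rfl⟩

variable {B : Finset (ℕ × ℕ)}

theorem row_add {c d u v x y : ℕ} (hx : x ∈ row (c • B) u) (hy : y ∈ row (d • B) v) :
    x + y ∈ row ((c + d) • B) (u + v) := by
  rw [mem_row] at hx hy ⊢
  rw [add_nsmul]
  exact Finset.add_mem_add hx hy

theorem row_zero_of {t x : ℕ} (h : x ∈ t • row B 0) : x ∈ row (t • B) 0 := by
  induction t generalizing x with
  | zero =>
    rw [zero_nsmul, Finset.mem_zero] at h
    rw [mem_row, zero_nsmul, Finset.mem_zero, h]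
    rfl
  | succ t ih =>
    rw [succ_nsmul, Finset.mem_add] at h
    obtain ⟨y, hy, z, hz, rfl⟩ := h
    have h1 := row_add (ih hy) (d := 1) (v := 0) (y := z) (by rw [one_nsmul]; exact hz)
    exact h1

theorem of_row_zero {t x : ℕ} (h : x ∈ row (t • B) 0) : x ∈ t • row B 0 := by
  induction t generalizing x with
  | zero =>
    rw [mem_row, zero_nsmul, Finset.mem_zero] at h
    rw [zero_nsmul, Finset.mem_zero]
    exact congrArg Prod.fst h
  | succ t ih =>
    rw [mem_row, succ_nsmul, Finset.mem_add] at h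
    obtain ⟨a, ha, b, hb, hab⟩ := h
    have h1 : a.1 + b.1 = x := congrArg Prod.fst hab
    have h2 : a.2 + b.2 = 0 := congrArg Prod.snd hab
    rw [succ_nsmul, ← h1]
    refine Finset.add_mem_add (ih ?_) ?_
    · rw [mem_row, ← (by omega : a.2 = 0)]
      exact ha
    · rw [mem_row, ← (by omega : b.2 = 0)]
      exact hb

theorem row_zero_eq (t : ℕ) : row (t • B) 0 = t • row B 0 :=
  Finset.Subset.antisymm (fun _ h => of_row_zero h) fun _ h => row_zero_of h

/-- A sum of `t + 1` elements in a row `≤ t` has a summand in the row `0`. -/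
theorem split_one (t : ℕ) (z : ℕ × ℕ) (hz : z ∈ (t + 1) • B) (h : z.2 ≤ t) :
    ∃ b ∈ B, b.2 = 0 ∧ ∃ z' ∈ t • B, z = z' + b := by
  induction t generalizing z with
  | zero =>
    rw [zero_add, one_nsmul] at hz
    exact ⟨z, hz, by omega, 0, by rw [zero_nsmul]; exact Finset.zero_mem_zero, by rw [zero_add]⟩
  | succ t ih =>
    rw [succ_nsmul, Finset.mem_add] at hz
    obtain ⟨z1, hz1, b1, hb1, rfl⟩ := hz
    by_cases hb : b1.2 = 0
    · exact ⟨b1, hb1, hb, z1, hz1, rfl⟩
    · have h1 : z1.2 ≤ t := by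
        have : (z1 + b1).2 = z1.2 + b1.2 := rfl
        omega
      obtain ⟨b, hb2, hb0, z', hz', hzz⟩ := ih z1 hz1 h1
      refine ⟨b, hb2, hb0, z' + b1, ?_, ?_⟩
      · rw [succ_nsmul]
        exact Finset.add_mem_add hz' hb1
      · rw [hzz]
        abel

theorem split (p q : ℕ) (z : ℕ × ℕ) (hz : z ∈ (p + q) • B) (h : z.2 ≤ p) :
    ∃ z1 ∈ p • B, ∃ z2 ∈ q • B, z2.2 = 0 ∧ z = z1 + z2 := by
  induction q generalizing z with
  | zero =>
    exact ⟨z, hz, 0, by rw [zero_nsmul]; exact Finset.zero_mem_zero, rfl, by rw [add_zero]⟩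
  | succ q ih =>
    obtain ⟨b, hb, hb0, z', hz', hzz⟩ := split_one (p + q) z hz (by omega)
    have h1 : z.2 = z'.2 + b.2 := by rw [hzz]; rfl
    obtain ⟨z1, hz1, z2, hz2, hz20, hz3⟩ := ih z' hz' (by omega)
    refine ⟨z1, hz1, z2 + b, ?_, ?_, ?_⟩
    · rw [succ_nsmul]
      exact Finset.add_mem_add hz2 hb
    · show z2.2 + b.2 = 0
      omega
    · rw [hzz, hz3, add_assoc]

theorem row_eq {c r : ℕ} (h : r ≤ c) : row (c • B) r = row (r • B) r + (c - r) • row B 0 := by
  ext x
  constructor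
  · intro hx
    rw [mem_row] at hx
    have h1 : r + (c - r) = c := by omega
    rw [← h1] at hx
    obtain ⟨z1, hz1, z2, hz2, hz20, hz⟩ := split r (c - r) (x, r) hx le_rfl
    have h2 : x = z1.1 + z2.1 := congrArg Prod.fst hz
    have h3 : r = z1.2 + z2.2 := congrArg Prod.snd hz
    rw [h2]
    refine Finset.add_mem_add ?_ (of_row_zero ?_)
    · rw [mem_row]
      have h4 : (z1.1, r) = z1 := by
        ext
        · rfl
        · show r = z1.2
          omega
      rw [h4]
      exact hz1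
    · rw [mem_row]
      have h4 : (z2.1, 0) = z2 := by
        ext
        · rfl
        · show 0 = z2.2
          omega
      rw [h4]
      exact hz2
  · intro hx
    obtain ⟨a, ha, b, hb, rfl⟩ := Finset.mem_add.1 hx
    have h1 := row_add ha (row_zero_of hb)
    rw [add_zero, (by omega : r + (c - r) = c)] at h1
    exact h1

theorem zero_mem_row (h0 : ((0, 0) : ℕ × ℕ) ∈ B) (t : ℕ) : 0 ∈ row (t • B) 0 := by
  induction t with
  | zero =>
    rw [mem_row, zero_nsmul, Finset.mem_zero]
    rfl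
  | succ t ih =>
    have h1 := row_add ih (d := 1) (v := 0) (y := 0) (by rw [one_nsmul, mem_row]; exact h0)
    exact h1

end Pool.Agent.Lib_helper37.RD
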