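import Pool.Agent.Lib_helper37.RD.Petr
import Pool.Agent.Lib_helper37.RD.Cut
import Pool.Agent.Lib_helper37.RD.Rows

/-!
# The row-lexicographic chain of sets
-/

set_option autoImplicit false

open Pointwise Finset
open Pool.Agent.Lib_helper16.SD

namespace Pool.Agent.Lib_helper37.RD

/-- Row `j` of `X + c B` for a set `X` with the rows `X 0, X 1, ...`, truncated at `n`. -/
def T (n : ℕ) (B : Finset (ℕ × ℕ)) (c : ℕ) (X : ℕ → Finset ℕ) (j : ℕ) : Finset ℕ :=
  ((range (j + 1)).biUnion fun l => X l + row (c • B) (j - l)).filter (· ≤ n)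

section

variable {n k k' i c h j l y : ℕ} {K : ℝ} {B : Finset (ℕ × ℕ)} {A X X' Y : ℕ → Finset ℕ}

theorem mem_T : y ∈ T n B c X j ↔ (∃ l ≤ j, y ∈ X l + row (c • B) (j - l)) ∧ y ≤ n := by
  simp only [T, Finset.mem_filter, Finset.mem_biUnion, Finset.mem_range]
  constructor
  · rintro ⟨⟨l, hl, h⟩, hn⟩
    exact ⟨⟨l, by omega, h⟩, hn⟩
  · rintro ⟨⟨l, hl, h⟩, hn⟩
    exact ⟨⟨l, by omega, h⟩, hn⟩

theorem T_mono (h : ∀ j, Y j ⊆ X j) (j : ℕ) : T n B c Y j ⊆ T n B c X j := by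
  intro y hy
  rw [mem_T] at hy ⊢
  obtain ⟨⟨l, hl, h1⟩, hn⟩ := hy
  exact ⟨⟨l, hl, Finset.add_subset_add_right (h l) h1⟩, hn⟩

theorem T_succ (hy : y ∈ T n B c X j) {b : ℕ} (hb : b ∈ row B 0) (hn : y + b ≤ n) :
    y + b ∈ T n B (c + 1) X j := by
  rw [mem_T] at hy ⊢
  obtain ⟨⟨l, hl, h1⟩, -⟩ := hy
  refine ⟨⟨l, hl, ?_⟩, hn⟩
  obtain ⟨x, hx, z, hz, rfl⟩ := Finset.mem_add.1 h1
  have h2 := row_add hz (d := 1) (v := 0) (y := b) (by rw [one_nsmul]; exact hb)
  rw [add_zero] at h2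
  rw [add_assoc]
  exact Finset.add_mem_add hx h2

theorem T_empty (h : ∀ j, X j = ∅) : T n B c X j = ∅ := by
  rw [Finset.eq_empty_iff_forall_notMem]
  intro y hy
  rw [mem_T] at hy
  obtain ⟨⟨l, hl, h1⟩, -⟩ := hy
  rw [h, Finset.empty_add] at h1
  simp at h1

/-- The dead set of row `l`. -/
def E (B : Finset (ℕ × ℕ)) (c : ℕ) (X Y : ℕ → Finset ℕ) (l : ℕ) : Finset ℕ :=
  ((range l).biUnion fun l' => X l' + row (c • B) (l - l')) ∪ (Y l + row (c • B) 0)

theorem mem_E : y ∈ E B c X Y l ↔ (∃ l' < l, y ∈ X l' + row (c • B) (l - l')) ∨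
    y ∈ Y l + row (c • B) 0 := by
  simp only [E, Finset.mem_union, Finset.mem_biUnion, Finset.mem_range]

theorem E_congr (h : ∀ l' < l, X l' = X' l') : E B c X Y l = E B c X' Y l := by
  ext y
  rw [mem_E, mem_E]
  constructor
  · rintro (⟨l, hl, h1⟩ | h1)
    · exact Or.inl ⟨l, hl, by rw [← h l hl]; exact h1⟩
    · exact Or.inr h1
  · rintro (⟨l, hl, h1⟩ | h1)
    · exact Or.inl ⟨l, hl, by rw [h l hl]; exact h1⟩
    · exact Or.inr h1

/-- `X` is a good next stage after `Y`, in row `l`, at the level `h`. -/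
def Good (n : ℕ) (K : ℝ) (B : Finset (ℕ × ℕ)) (h : ℕ) (A X Y : ℕ → Finset ℕ) (l : ℕ) : Prop :=
  Y l ⊆ X l ∧ X l ⊆ A l ∧
    (∀ W ⊆ X l \ Y l, ((((((X l \ Y l) + h • row B 0) \ (W + h • row B 0)) \ E B h X Y l).filter
      (· ≤ n)).card : ℝ) ≤ K ^ h * (((X l \ Y l) \ W).card : ℝ)) ∧
      ∀ S' ⊆ A l \ X l, K ^ h * (S'.card : ℝ) ≤
        (((((S' + h • row B 0) \ ((X l \ Y l) + h • row B 0)) \ E B h X Y l).filter
          (· ≤ n)).card : ℝ)

theorem Good_congr (h' : ∀ l' ≤ l, X l' = X' l') : Good n K B h A X Y l ↔ Good n K B h A X' Y l := by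
  unfold Good
  rw [E_congr (X := X) (X' := X') fun l hl => h' l hl.le, h' l le_rfl]

theorem exists_good (n : ℕ) (K : ℝ) (B : Finset (ℕ × ℕ)) (H : ℕ → ℕ) (A Y : ℕ → Finset ℕ)
    (hY : ∀ j, Y j ⊆ A j) : ∃ X : ℕ → Finset ℕ, ∀ l, Good n K B (H l) A X Y l := by
  classical
  have key : ∀ J : ℕ, ∀ X : ℕ → Finset ℕ, ∃ Z : Finset ℕ,
      Good n K B (H J) A (Function.update X J Z) Y J := by
    intro J X
    obtain ⟨Z, hZ, h1, h2⟩ := exists_min n (K ^ H J) (A J \ Y J) (H J • row B 0) (E B (H J) X Y J)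
    have hZY : (Y J ∪ Z) \ Y J = Z := by
      rw [Finset.union_sdiff_left]
      refine Finset.sdiff_eq_self_of_disjoint ?_
      rw [Finset.disjoint_left]
      intro y hy
      exact (Finset.mem_sdiff.1 (hZ hy)).2
    refine ⟨Y J ∪ Z, ?_⟩
    unfold Good
    rw [E_congr (X := Function.update X J (Y J ∪ Z)) (X' := X) fun l hl =>
      Function.update_of_ne hl.ne _ _, Function.update_self, hZY]
    refine ⟨Finset.subset_union_left, Finset.union_subset (hY J) (hZ.trans Finset.sdiff_subset), h1, ?_⟩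
    intro S' hS'
    refine h2 S' (hS'.trans ?_)
    intro y hy
    simp only [Finset.mem_sdiff, Finset.mem_union] at hy ⊢
    tauto
  -- build the rows one after the other
  obtain ⟨F, hF⟩ : ∃ F : ℕ → ℕ → Finset ℕ, ∀ J, F (J + 1) =
      Function.update (F J) J (Classical.choose (key J (F J))) :=
    ⟨fun J => Nat.rec (fun _ => ∅) (fun J X => Function.update X J (Classical.choose (key J X))) J,
      fun J => rfl⟩
  have hst : ∀ J j, j < J → F J j = F (j + 1) j := by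
    intro J
    induction J with
    | zero => intro j hj; omega
    | succ J ih =>
      intro j hj
      rcases Nat.lt_succ_iff_lt_or_eq.1 hj with h | h
      · rw [hF J, Function.update_of_ne h.ne]
        exact ih j h
      · rw [h]
  refine ⟨fun j => F (j + 1) j, ?_⟩
  intro j
  have h1 := Classical.choose_spec (key j (F j))
  rw [← hF j] at h1
  refine (Good_congr ?_).1 h1
  intro l hl
  rcases Nat.lt_or_eq_of_le hl with h | h
  · exact hst (j + 1) l (by omega)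
  · rw [h]

/-- The partial unions in the row `i`. -/
def V (n : ℕ) (B : Finset (ℕ × ℕ)) (c : ℕ) (X Y : ℕ → Finset ℕ) (i l : ℕ) : Finset ℕ :=
  T n B c Y i ∪ ((range l).biUnion fun l' => X l' + row (c • B) (i - l')).filter (· ≤ n)

theorem mem_V : y ∈ V n B c X Y i l ↔ ((∃ l' ≤ i, y ∈ Y l' + row (c • B) (i - l')) ∨
      ∃ l' < l, y ∈ X l' + row (c • B) (i - l')) ∧ y ≤ n := by
  rw [V, Finset.mem_union, mem_T]
  simp only [Finset.mem_filter, Finset.mem_biUnion, Finset.mem_range]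
  exact or_and_right.symm

theorem V_zero : V n B c X Y i 0 = T n B c Y i := by
  simp [V]

theorem V_top (h : ∀ j, Y j ⊆ X j) : V n B c X Y i (i + 1) = T n B c X i := by
  ext y
  rw [mem_V, mem_T]
  constructor
  · rintro ⟨⟨l, hl, h1⟩ | ⟨l, hl, h1⟩, hn⟩
    · exact ⟨⟨l, hl, Finset.add_subset_add_right (h l) h1⟩, hn⟩
    · exact ⟨⟨l, by omega, h1⟩, hn⟩
  · rintro ⟨⟨l, hl, h1⟩, hn⟩
    exact ⟨Or.inr ⟨l, by omega, h1⟩, hn⟩

theorem V_add (hy : y ∈ V n B c X Y i l) {t b : ℕ} (hb : b ∈ row (t • B) 0) (hn : y + b ≤ n) :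
    y + b ∈ V n B (c + t) X Y i l := by
  rw [mem_V] at hy ⊢
  refine ⟨?_, hn⟩
  rcases hy.1 with ⟨l', hl', h1⟩ | ⟨l', hl', h1⟩
  · obtain ⟨x, hx, z, hz, rfl⟩ := Finset.mem_add.1 h1
    refine Or.inl ⟨l', hl', ?_⟩
    have h2 := row_add hz hb
    rw [add_zero] at h2
    rw [add_assoc]
    exact Finset.add_mem_add hx h2
  · obtain ⟨x, hx, z, hz, rfl⟩ := Finset.mem_add.1 h1
    refine Or.inr ⟨l', hl', ?_⟩
    have h2 := row_add hz hb
    rw [add_zero] at h2
    rw [add_assoc]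
    exact Finset.add_mem_add hx h2

theorem V_inc (hl : l ≤ i) (c : ℕ) :
    ((V n B c X Y i (l + 1)).card : ℝ) - ((V n B c X Y i l).card : ℝ) =
      (((((X l \ Y l) + row (c • B) (i - l)) \ V n B c X Y i l).filter (· ≤ n)).card : ℝ) := by
  classical
  have h1 : V n B c X Y i (l + 1) = V n B c X Y i l ∪
      ((((X l \ Y l) + row (c • B) (i - l)) \ V n B c X Y i l).filter (· ≤ n)) := by
    ext y
    constructor
    · intro hy
      by_cases hy2 : y ∈ V n B c X Y i l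
      · exact Finset.mem_union_left _ hy2
      · rw [Finset.mem_union, Finset.mem_filter, Finset.mem_sdiff]
        right
        rw [mem_V] at hy
        obtain ⟨hy, hn⟩ := hy
        refine ⟨⟨?_, hy2⟩, hn⟩
        rw [mem_V] at hy2
        rcases hy with hy | ⟨l', hl', hy⟩
        · exact absurd ⟨Or.inl hy, hn⟩ hy2
        · rcases Nat.lt_succ_iff_lt_or_eq.1 hl' with h1 | h1
          · exact absurd ⟨Or.inr ⟨l', h1, hy⟩, hn⟩ hy2
          · subst h1
            obtain ⟨x, hx, b, hb, hxb⟩ := Finset.mem_add.1 hy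
            by_cases hxY : x ∈ Y l'
            · exact absurd ⟨Or.inl ⟨l', hl, hxb ▸ Finset.add_mem_add hxY hb⟩, hn⟩ hy2
            · rw [← hxb]
              exact Finset.add_mem_add (Finset.mem_sdiff.2 ⟨hx, hxY⟩) hb
    · intro hy
      rw [Finset.mem_union, Finset.mem_filter, Finset.mem_sdiff] at hy
      rw [mem_V]
      rcases hy with hy | ⟨⟨hy, -⟩, hn⟩
      · rw [mem_V] at hy
        obtain ⟨hy, hn⟩ := hy
        refine ⟨?_, hn⟩
        rcases hy with hy | ⟨l', hl', hy⟩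
        · exact Or.inl hy
        · exact Or.inr ⟨l', by omega, hy⟩
      · refine ⟨Or.inr ⟨l, by omega, ?_⟩, hn⟩
        exact Finset.add_subset_add_right Finset.sdiff_subset hy
  have h2 : Disjoint (V n B c X Y i l)
      ((((X l \ Y l) + row (c • B) (i - l)) \ V n B c X Y i l).filter (· ≤ n)) := by
    rw [Finset.disjoint_left]
    intro y hy hy'
    rw [Finset.mem_filter, Finset.mem_sdiff] at hy'
    exact hy'.1.2 hy
  rw [h1, Finset.card_union_of_disjoint h2]
  push_cast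
  ring

/-- The growth of one increment. -/
theorem V_step (hK : 0 < K) (hk' : 0 < k') (hl : l ≤ i) (hi : i - l ≤ k') (hik : k' + (i - l) ≤ k)
    (hg : Good n K B (k - (i - l)) A X Y l) :
    ((V n B k X Y i (l + 1)).card : ℝ) - ((V n B k X Y i l).card : ℝ) ≤
      K ^ (k - k') * (((V n B k' X Y i (l + 1)).card : ℝ) - ((V n B k' X Y i l).card : ℝ)) := by
  classical
  obtain ⟨-, -, hmin, -⟩ := hg
  rw [V_inc hl, V_inc hl]
  obtain ⟨r, hr⟩ : ∃ r, r = i - l := ⟨_, rfl⟩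
  obtain ⟨h, hh⟩ : ∃ h, h = k - r := ⟨_, rfl⟩
  obtain ⟨Z, hZ⟩ : ∃ Z, Z = X l \ Y l := ⟨_, rfl⟩
  obtain ⟨C, hC⟩ : ∃ C, C = row (r • B) r := ⟨_, rfl⟩
  obtain ⟨B0, hB0⟩ : ∃ B0, B0 = row B 0 := ⟨_, rfl⟩
  rw [← hr, ← hh, ← hZ, ← hB0] at hmin
  rw [← hr, ← hZ, row_eq (by omega : r ≤ k), row_eq (by omega : r ≤ k'), ← hC, ← hB0, ← hh]
  have hrk : r + h = k := by omega
  -- the graph
  obtain ⟨al, hal⟩ : ∃ al : ℕ → ℕ → Prop, al = fun t x => x ≤ n ∧ x ∉ V n B (r + t) X Y i l := ⟨_, rfl⟩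
  have halp : ∀ t x b, b ∈ B0 → al (t + 1) (x + b) → al t x := by
    intro t x b hb h1
    rw [hal] at h1 ⊢
    obtain ⟨h1, h2⟩ := h1
    refine ⟨by omega, fun h3 => h2 ?_⟩
    have h4 := V_add h3 (t := 1) (b := b) (by rw [one_nsmul, ← hB0]; exact hb) h1
    rw [← add_assoc]
    exact h4
  obtain ⟨A', hA'⟩ : ∃ A', A' = ((Z + C) \ V n B r X Y i l).filter (· ≤ n) := ⟨_, rfl⟩
  have hmemA' : ∀ x, x ∈ A' ↔ (x ∈ Z + C ∧ x ∉ V n B r X Y i l) ∧ x ≤ n := by
    intro x
    rw [hA', Finset.mem_filter, Finset.mem_sdiff]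
  have hIt : ∀ t, It B0 al t A' = (((Z + (C + t • B0)) \ V n B (r + t) X Y i l).filter (· ≤ n)) := by
    intro t
    ext x
    rw [mem_It' halp, Finset.mem_filter, Finset.mem_sdiff]
    constructor
    · rintro ⟨h1, h2⟩
      obtain ⟨u, hu, b, hb, rfl⟩ := Finset.mem_add.1 h1
      rw [hmemA'] at hu
      have h3 : u + b ∈ Z + (C + t • B0) := by
        rw [← add_assoc]
        exact Finset.add_mem_add hu.1.1 hb
      rcases h2 with h2 | h2
      · subst h2
        rw [zero_nsmul, Finset.mem_zero] at hb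
        subst hb
        exact ⟨⟨h3, hu.1.2⟩, hu.2⟩
      · rw [hal] at h2
        exact ⟨⟨h3, h2.2⟩, h2.1⟩
    · rintro ⟨⟨h1, h2⟩, h3⟩
      rw [← add_assoc] at h1
      obtain ⟨u, hu, b, hb, rfl⟩ := Finset.mem_add.1 h1
      refine ⟨Finset.add_mem_add ?_ hb, Or.inr ?_⟩
      · rw [hmemA']
        refine ⟨⟨hu, fun h4 => h2 ?_⟩, by omega⟩
        exact V_add h4 (by rw [row_zero_eq, ← hB0]; exact hb) h3
      · rw [hal]
        exact ⟨h3, h2⟩
  obtain ⟨P0, hP0, hcut⟩ := cut A' B0 al halp h (by omega) K hK (k' - r) (by omega)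
  -- the top level
  have hpet := petr n (K ^ h) (by positivity) Z (h • B0) (E B h X Y l) (V n B r X Y i l ∪ P0)
    (V n B k X Y i l ∪ (P0 + h • B0)) hmin (by
      intro d hd b hb hn
      rw [Finset.mem_union] at hd ⊢
      rcases hd with hd | hd
      · left
        have h1 := V_add hd (t := h) (b := b) (by rw [row_zero_eq, ← hB0]; exact hb) hn
        rw [hrk] at h1
        exact h1
      · exact Or.inr (Finset.add_mem_add hd hb)) C (by
      intro e he c hc hn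
      rw [Finset.mem_union]
      left
      rw [mem_V]
      refine ⟨?_, hn⟩
      rw [mem_E] at he
      rw [hC] at hc
      have hhr : h + r = k := by omega
      rcases he with ⟨l', hl', h1⟩ | h1
      · right
        obtain ⟨x, hx, z, hz, rfl⟩ := Finset.mem_add.1 h1
        refine ⟨l', hl', ?_⟩
        have h2 := row_add hz hc
        rw [hhr, (by omega : l - l' + r = i - l')] at h2
        rw [add_assoc]
        exact Finset.add_mem_add hx h2
      · left
        obtain ⟨x, hx, z, hz, rfl⟩ := Finset.mem_add.1 h1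
        refine ⟨l, hl, ?_⟩
        have h2 := row_add hz hc
        rw [hhr, zero_add, hr] at h2
        rw [add_assoc]
        exact Finset.add_mem_add hx h2)
  have hA'P : (((Z + C) \ (V n B r X Y i l ∪ P0)).filter (· ≤ n)) = A' \ P0 := by
    ext x
    rw [Finset.mem_filter, Finset.mem_sdiff, Finset.mem_sdiff, hmemA', Finset.mem_union]
    tauto
  rw [hA'P] at hpet
  have hsub : It B0 al h A' ⊆ (((Z + h • B0 + C) \ (V n B k X Y i l ∪ (P0 + h • B0))).filter (· ≤ n)) ∪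
      It B0 al h P0 := by
    intro x hx
    rw [hIt, Finset.mem_filter, Finset.mem_sdiff, hrk] at hx
    obtain ⟨⟨h1, h2⟩, h3⟩ := hx
    rw [Finset.mem_union]
    by_cases h4 : x ∈ P0 + h • B0
    · right
      rw [mem_It' halp]
      refine ⟨h4, Or.inr ?_⟩
      rw [hal]
      refine ⟨h3, ?_⟩
      show x ∉ V n B (r + h) X Y i l
      rw [hrk]
      exact h2
    · left
      rw [Finset.mem_filter, Finset.mem_sdiff, Finset.mem_union]
      refine ⟨⟨?_, fun h5 => h5.elim h2 h4⟩, h3⟩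
      have h5 : Z + h • B0 + C = Z + (C + h • B0) := by abel
      rw [h5]
      exact h1
  have h1 : ((It B0 al h A').card : ℝ) ≤ K ^ h * ((A' \ P0).card : ℝ) + ((It B0 al h P0).card : ℝ) := by
    have h2 := Finset.card_le_card hsub
    have h3 := Finset.card_union_le (((Z + h • B0 + C) \ (V n B k X Y i l ∪ (P0 + h • B0))).filter
      (· ≤ n)) (It B0 al h P0)
    have h4 : ((It B0 al h A').card : ℝ) ≤ (((((Z + h • B0 + C) \ (V n B k X Y i l ∪
        (P0 + h • B0))).filter (· ≤ n)).card : ℝ)) + ((It B0 al h P0).card : ℝ) := by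
      exact_mod_cast h2.trans h3
    linarith
  have h2 : K⁻¹ ^ h * ((It B0 al h A').card : ℝ) ≤ K⁻¹ ^ (k' - r) * ((It B0 al (k' - r) A').card : ℝ) := by
    have h3 : K⁻¹ ^ h * ((It B0 al h A').card : ℝ) ≤ K⁻¹ ^ h * (K ^ h * ((A' \ P0).card : ℝ) +
        ((It B0 al h P0).card : ℝ)) := mul_le_mul_of_nonneg_left h1 (by positivity)
    have h4 : K⁻¹ ^ h * (K ^ h * ((A' \ P0).card : ℝ) + ((It B0 al h P0).card : ℝ)) =
        ((A' \ P0).card : ℝ) + K⁻¹ ^ h * ((It B0 al h P0).card : ℝ) := by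
      have h5 : K⁻¹ ^ h * K ^ h = 1 := by rw [← mul_pow, inv_mul_cancel₀ hK.ne', one_pow]
      calc K⁻¹ ^ h * (K ^ h * ((A' \ P0).card : ℝ) + ((It B0 al h P0).card : ℝ)) =
          (K⁻¹ ^ h * K ^ h) * ((A' \ P0).card : ℝ) + K⁻¹ ^ h * ((It B0 al h P0).card : ℝ) := by ring
        _ = _ := by rw [h5, one_mul]
    rw [h4] at h3
    exact h3.trans hcut
  have h3 : ((It B0 al h A').card : ℝ) ≤ K ^ (k - k') * ((It B0 al (k' - r) A').card : ℝ) := by
    have h4 : K ^ h = K ^ (k - k') * K ^ (k' - r) := by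
      rw [← pow_add]
      congr 1
      omega
    have h5 := mul_le_mul_of_nonneg_left h2 (by positivity : (0 : ℝ) ≤ K ^ h)
    have h6 : K ^ h * (K⁻¹ ^ h * ((It B0 al h A').card : ℝ)) = ((It B0 al h A').card : ℝ) := by
      rw [← mul_assoc, ← mul_pow, mul_inv_cancel₀ hK.ne', one_pow, one_mul]
    have h7 : K ^ h * (K⁻¹ ^ (k' - r) * ((It B0 al (k' - r) A').card : ℝ)) =
        K ^ (k - k') * ((It B0 al (k' - r) A').card : ℝ) := by
      rw [h4]
      have h8 : K ^ (k' - r) * K⁻¹ ^ (k' - r) = 1 := by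
        rw [← mul_pow, mul_inv_cancel₀ hK.ne', one_pow]
      calc K ^ (k - k') * K ^ (k' - r) * (K⁻¹ ^ (k' - r) * ((It B0 al (k' - r) A').card : ℝ)) =
          K ^ (k - k') * (K ^ (k' - r) * K⁻¹ ^ (k' - r)) * ((It B0 al (k' - r) A').card : ℝ) := by ring
        _ = _ := by rw [h8, mul_one]
    rw [h6, h7] at h5
    exact h5
  rw [hIt, hIt, hrk, (by omega : r + (k' - r) = k')] at h3
  exact h3

/-- The growth of the row `i`. -/
theorem T_step (hK : 0 < K) (hk' : 0 < k') (hi : i ≤ k') (hik : k' + i ≤ k)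
    (hg : ∀ l ≤ i, Good n K B (k - (i - l)) A X Y l) (hYX : ∀ l, Y l ⊆ X l) :
    ((T n B k X i).card : ℝ) - ((T n B k Y i).card : ℝ) ≤
      K ^ (k - k') * (((T n B k' X i).card : ℝ) - ((T n B k' Y i).card : ℝ)) := by
  have key : ∀ l ≤ i + 1, ((V n B k X Y i l).card : ℝ) - ((V n B k X Y i 0).card : ℝ) ≤
      K ^ (k - k') * (((V n B k' X Y i l).card : ℝ) - ((V n B k' X Y i 0).card : ℝ)) := by
    intro l
    induction l with
    | zero => intro _; simp
    | succ l ih =>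
      intro hl
      have h1 := ih (by omega)
      have h2 := V_step (k := k) (k' := k') hK hk' (by omega : l ≤ i) (by omega) (by omega)
        (hg l (by omega))
      linarith
  have h1 := key (i + 1) le_rfl
  rw [V_top hYX, V_top hYX, V_zero, V_zero] at h1
  exact h1

end

end Pool.Agent.Lib_helper37.RD
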