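import Mathlib

/-!
# The averaging argument
-/

set_option autoImplicit false

open Finset

namespace Pool.Agent.Lib_helper37.RD

/-- Summation by parts. -/
theorem abel (w h : ℕ → ℝ) (hw : Antitone w) (N : ℕ) (hH : ∀ i ≤ N, 0 ≤ ∑ l ∈ range i, h l) :
    w N * ∑ l ∈ range N, h l ≤ ∑ l ∈ range N, w l * h l := by
  induction N with
  | zero => simp
  | succ N ih =>
    have h1 := ih fun i hi => hH i (by omega)
    rw [Finset.sum_range_succ (fun l => w l * h l)]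
    have h2 := mul_le_mul_of_nonneg_right (hw (Nat.le_succ N)) (hH (N + 1) le_rfl)
    calc w (N + 1) * ∑ l ∈ range (N + 1), h l ≤ w N * ∑ l ∈ range (N + 1), h l := h2
      _ = w N * ∑ l ∈ range N, h l + w N * h N := by rw [Finset.sum_range_succ]; ring
      _ ≤ _ := by linarith

theorem abel_le (w f g : ℕ → ℝ) (hw : Antitone w) (hw0 : ∀ i, 0 ≤ w i) (N : ℕ)
    (hH : ∀ i ≤ N, ∑ l ∈ range i, g l ≤ ∑ l ∈ range i, f l) :
    ∑ l ∈ range N, w l * g l ≤ ∑ l ∈ range N, w l * f l := by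
  have h1 := abel w (fun l => f l - g l) hw N fun i hi => by
    rw [Finset.sum_sub_distrib]
    linarith [hH i hi]
  have h2 : 0 ≤ ∑ l ∈ range N, (f l - g l) := by
    rw [Finset.sum_sub_distrib]
    linarith [hH N le_rfl]
  have h3 := mul_nonneg (hw0 N) h2
  have h4 : ∑ l ∈ range N, w l * (f l - g l) = ∑ l ∈ range N, w l * f l - ∑ l ∈ range N, w l * g l := by
    rw [← Finset.sum_sub_distrib]
    exact Finset.sum_congr rfl fun l _ => by ring
  rw [h4] at h1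
  linarith

/-- The jump of an increasing 0-1 sequence, increasing weights. -/
theorem jump (w u : ℕ → ℝ) (hw : Monotone w) (hu : Monotone u) (L i0 : ℕ) (h0 : ∀ i ≤ i0, u i = 0)
    (hL : u L = 1) : w i0 ≤ ∑ i ∈ range L, w i * (u (i + 1) - u i) := by
  have h1 : ∀ i ∈ range L, w i0 * (u (i + 1) - u i) ≤ w i * (u (i + 1) - u i) := by
    intro i _
    rcases Nat.lt_or_ge i i0 with h | h
    · rw [h0 i h.le, h0 (i + 1) h]
      simp
    · exact mul_le_mul_of_nonneg_right (hw h) (sub_nonneg.2 (hu (Nat.le_succ i)))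
  have h2 := Finset.sum_le_sum h1
  rw [← Finset.mul_sum, Finset.sum_range_sub, hL, h0 0 (Nat.zero_le _)] at h2
  simpa using h2

/-- The jump of an increasing 0-1 sequence, decreasing weights. -/
theorem jump' (w u : ℕ → ℝ) (hw : Antitone w) (hu : Monotone u) (L i0 : ℕ) (h0 : u 0 = 0)
    (h1 : ∀ i, i0 < i → u i = 1) (hL : u L = 1) : w i0 ≤ ∑ i ∈ range L, w i * (u (i + 1) - u i) := by
  have h2 : ∀ i ∈ range L, w i0 * (u (i + 1) - u i) ≤ w i * (u (i + 1) - u i) := by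
    intro i _
    rcases Nat.lt_or_ge i0 i with h | h
    · rw [h1 i h, h1 (i + 1) (by omega)]
      simp
    · exact mul_le_mul_of_nonneg_right (hw h) (sub_nonneg.2 (hu (Nat.le_succ i)))
  have h3 := Finset.sum_le_sum h2
  rw [← Finset.mul_sum, Finset.sum_range_sub, hL, h0] at h3
  simpa using h3

/-- The weights. -/
theorem exists_q (m : ℕ) (s : ℝ) (hs : 1 ≤ s) : ∃ q : ℕ → ℝ, q (m + 1) = 1 ∧ (∀ j ≤ m, 0 ≤ q j) ∧
    (∀ j ≤ m, q j ≤ q (j + 1)) ∧ ∀ j ≤ m, ((j : ℝ) + s) * q j = ((j : ℝ) + 1) * q (j + 1) := by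
  refine ⟨fun j => ∏ i ∈ Ico j (m + 1), (((i : ℝ) + 1) / ((i : ℝ) + s)), by simp, ?_, ?_, ?_⟩
  · intro j _
    exact Finset.prod_nonneg fun i _ => by positivity
  · intro j hj
    show (∏ i ∈ Ico j (m + 1), (((i : ℝ) + 1) / ((i : ℝ) + s))) ≤
      ∏ i ∈ Ico (j + 1) (m + 1), (((i : ℝ) + 1) / ((i : ℝ) + s))
    rw [Finset.prod_eq_prod_Ico_succ_bot (by omega : j < m + 1)]
    have h1 : (((j : ℝ) + 1) / ((j : ℝ) + s)) ≤ 1 := by
      rw [div_le_one (by positivity)]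
      linarith
    have h2 : 0 ≤ ∏ i ∈ Ico (j + 1) (m + 1), (((i : ℝ) + 1) / ((i : ℝ) + s)) :=
      Finset.prod_nonneg fun i _ => by positivity
    exact mul_le_of_le_one_left h2 h1
  · intro j hj
    show ((j : ℝ) + s) * (∏ i ∈ Ico j (m + 1), (((i : ℝ) + 1) / ((i : ℝ) + s))) =
      ((j : ℝ) + 1) * ∏ i ∈ Ico (j + 1) (m + 1), (((i : ℝ) + 1) / ((i : ℝ) + s))
    rw [Finset.prod_eq_prod_Ico_succ_bot (by omega : j < m + 1)]
    have : ((j : ℝ) + s) ≠ 0 := by positivity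
    field_simp

/-- The average of the bounds. -/
theorem lp (n m : ℕ) (s : ℝ) (hs : 1 ≤ s) (r S Λ : ℕ → ℝ) (M : ℕ → ℕ → ℝ) (α β c0 : ℝ)
    (H1 : ∀ i ≤ m, ∀ j ≤ i, M j i ≤ r j) (H2 : ∀ j ≤ m, β * Λ j ≤ r j)
    (H3 : ∀ i ≤ m, α * ((i : ℝ) + 1) * S i ≤ ∑ j ∈ range (i + 1), M j i)
    (H4 : ∀ i ≤ m, s * c0 * ((n : ℝ) + 1) ≤ (s - 1) * α * S i + β * Λ i) :
    c0 * ((n : ℝ) + 1) * ((m : ℝ) + 1) ≤ ∑ j ∈ range (m + 1), r j := by
  obtain ⟨q, hq1, hq0, hqm, hqr⟩ := exists_q m s hs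
  have h1 : ∀ j ∈ range (m + 1), ∑ i ∈ Ico j (m + 1), (q (i + 1) - q i) * M j i ≤ (1 - q j) * r j := by
    intro j hj
    have hj' : j ≤ m + 1 := (Finset.mem_range.1 hj).le
    have h2 : ∑ i ∈ Ico j (m + 1), (q (i + 1) - q i) * M j i ≤
        ∑ i ∈ Ico j (m + 1), (q (i + 1) - q i) * r j := by
      refine Finset.sum_le_sum fun i hi => ?_
      rw [Finset.mem_Ico] at hi
      exact mul_le_mul_of_nonneg_left (H1 i (by omega) j hi.1) (sub_nonneg.2 (hqm i (by omega)))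
    refine h2.trans ?_
    rw [← Finset.sum_mul, Finset.sum_Ico_eq_sub _ hj', Finset.sum_range_sub, Finset.sum_range_sub, hq1]
    apply le_of_eq
    ring
  have h2 : ∑ j ∈ range (m + 1), ∑ i ∈ Ico j (m + 1), (q (i + 1) - q i) * M j i =
      ∑ i ∈ range (m + 1), ∑ j ∈ range (i + 1), (q (i + 1) - q i) * M j i := by
    refine Finset.sum_comm' ?_
    intro j i
    simp only [Finset.mem_range, Finset.mem_Ico]
    omega
  have h3 : ∀ i ∈ range (m + 1), (s - 1) * q i * (α * S i) ≤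
      ∑ j ∈ range (i + 1), (q (i + 1) - q i) * M j i := by
    intro i hi
    have hi' : i ≤ m := by have := Finset.mem_range.1 hi; omega
    rw [← Finset.mul_sum]
    have h4 := mul_le_mul_of_nonneg_left (H3 i hi') (sub_nonneg.2 (hqm i hi'))
    have h5 := hqr i hi'
    have h6 : (s - 1) * q i = ((i : ℝ) + 1) * (q (i + 1) - q i) := by linarith
    calc (s - 1) * q i * (α * S i) = (q (i + 1) - q i) * (α * ((i : ℝ) + 1) * S i) := by
          rw [h6]; ring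
      _ ≤ _ := h4
  have h4 : ∀ j ∈ range (m + 1), q j * (β * Λ j) ≤ q j * r j := by
    intro j hj
    have hj' : j ≤ m := by have := Finset.mem_range.1 hj; omega
    exact mul_le_mul_of_nonneg_left (H2 j hj') (hq0 j hj')
  have h5 : ∑ i ∈ range (m + 1), s * q i = (m : ℝ) + 1 := by
    have h6 : ∀ i ∈ range (m + 1), s * q i = ((i + 1 : ℕ) : ℝ) * q (i + 1) - (i : ℝ) * q i := by
      intro i hi
      have hi' : i ≤ m := by have := Finset.mem_range.1 hi; omega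
      have h7 := hqr i hi'
      push_cast
      linarith
    rw [Finset.sum_congr rfl h6, Finset.sum_range_sub (fun i => (i : ℝ) * q i), hq1]
    push_cast
    ring
  have h6 : ∑ j ∈ range (m + 1), r j = ∑ j ∈ range (m + 1), (1 - q j) * r j +
      ∑ j ∈ range (m + 1), q j * r j := by
    rw [← Finset.sum_add_distrib]
    exact Finset.sum_congr rfl fun j _ => by ring
  have h7 : ∑ i ∈ range (m + 1), (s - 1) * q i * (α * S i) ≤ ∑ j ∈ range (m + 1), (1 - q j) * r j :=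
    ((Finset.sum_le_sum h3).trans h2.symm.le).trans (Finset.sum_le_sum h1)
  have h8 := Finset.sum_le_sum h4
  have h9 : ∑ i ∈ range (m + 1), q i * (s * c0 * ((n : ℝ) + 1)) ≤
      ∑ i ∈ range (m + 1), (s - 1) * q i * (α * S i) + ∑ j ∈ range (m + 1), q j * (β * Λ j) := by
    rw [← Finset.sum_add_distrib]
    refine Finset.sum_le_sum fun i hi => ?_
    have hi' : i ≤ m := by have := Finset.mem_range.1 hi; omega
    have h10 := mul_le_mul_of_nonneg_left (H4 i hi') (hq0 i hi')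
    linarith
  have h10 : ∑ i ∈ range (m + 1), q i * (s * c0 * ((n : ℝ) + 1)) = c0 * ((n : ℝ) + 1) * ((m : ℝ) + 1) := by
    rw [← h5, Finset.mul_sum]
    exact Finset.sum_congr rfl fun i _ => by ring
  rw [h10] at h9
  rw [h6]
  linarith

/-- Weighted arithmetic and geometric means. -/
theorem amgm (k k' : ℕ) (hk' : 0 < k') (hk : k' ≤ k) (α β ρ κ : ℝ) (hα : 0 ≤ α) (hβ : 0 ≤ β)
    (hρ : 0 < ρ) (hκ : 0 < κ) :
    (k : ℝ) / (k' : ℝ) * (α ^ (1 - (k' : ℝ) / (k : ℝ)) * β ^ ((k' : ℝ) / (k : ℝ)) *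
      (ρ ^ (((k : ℝ) - (k' : ℝ)) * (k' : ℝ) / (k : ℝ)))⁻¹) ≤
      ((k : ℝ) / (k' : ℝ) - 1) * (α * κ ^ k') + β * ((ρ * κ) ^ (k - k'))⁻¹ := by
  have hk'R : (0 : ℝ) < (k' : ℝ) := by exact_mod_cast hk'
  have hkR : (0 : ℝ) < (k : ℝ) := by exact_mod_cast lt_of_lt_of_le hk' hk
  have hkk : (k' : ℝ) ≤ (k : ℝ) := by exact_mod_cast hk
  have ht1 : (k' : ℝ) / (k : ℝ) ≤ 1 := (div_le_one hkR).2 hkk
  obtain ⟨e, he⟩ : ∃ e, e = ((k : ℝ) - (k' : ℝ)) * (k' : ℝ) / (k : ℝ) := ⟨_, rfl⟩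
  have h1 := Real.geom_mean_le_arith_mean2_weighted (w₁ := 1 - (k' : ℝ) / (k : ℝ))
    (w₂ := (k' : ℝ) / (k : ℝ)) (p₁ := α * κ ^ k') (p₂ := β * ((ρ * κ) ^ (k - k'))⁻¹) (by linarith)
    (by positivity) (by positivity) (by positivity) (by ring)
  have h2 : (κ ^ k') ^ (1 - (k' : ℝ) / (k : ℝ)) = κ ^ e := by
    rw [← Real.rpow_natCast, ← Real.rpow_mul hκ.le, he]
    congr 1
    field_simp
  have h3 : ((ρ * κ) ^ (k - k'))⁻¹ ^ ((k' : ℝ) / (k : ℝ)) = (ρ ^ e)⁻¹ * (κ ^ e)⁻¹ := by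
    rw [Real.inv_rpow (by positivity), ← Real.rpow_natCast, ← Real.rpow_mul (by positivity),
      Nat.cast_sub hk, (by rw [he]; ring : ((k : ℝ) - (k' : ℝ)) * ((k' : ℝ) / (k : ℝ)) = e),
      Real.mul_rpow hρ.le hκ.le, mul_inv]
  rw [Real.mul_rpow hα (by positivity), Real.mul_rpow hβ (by positivity), h2, h3] at h1
  have h4 : κ ^ e ≠ 0 := (Real.rpow_pos_of_pos hκ _).ne'
  have h5 : α ^ (1 - (k' : ℝ) / (k : ℝ)) * κ ^ e * (β ^ ((k' : ℝ) / (k : ℝ)) *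
      ((ρ ^ e)⁻¹ * (κ ^ e)⁻¹)) = α ^ (1 - (k' : ℝ) / (k : ℝ)) * β ^ ((k' : ℝ) / (k : ℝ)) * (ρ ^ e)⁻¹ := by
    field_simp
  rw [h5] at h1
  rw [← he]
  have h6 := mul_le_mul_of_nonneg_left h1 (by positivity : (0 : ℝ) ≤ (k : ℝ) / (k' : ℝ))
  refine h6.trans (le_of_eq ?_)
  field_simp

end Pool.Agent.Lib_helper37.RD
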