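import Pool.Agent.Lib_helper37.RD.Chain
import Pool.Agent.Lib_helper37.RD.Lp

/-!
# The two bounds for a row
-/

set_option autoImplicit false

open Pointwise Finset
open Pool.Agent.Lib_helper16.SD

namespace Pool.Agent.Lib_helper37.RD

theorem exists_chain (n : ℕ) (ρ : ℝ) (H : ℕ → ℕ) (A : ℕ → Finset ℕ) (B : Finset (ℕ × ℕ)) :
    ∃ x : ℕ → ℕ → Finset ℕ, (∀ j, x 0 j = ∅) ∧
      ∀ i l, Good n (ρ ^ (i + 1)) B (H l) A (x (i + 1)) (x i) l := by
  obtain ⟨F, hF0, hF⟩ : ∃ F : ℕ → {Y : ℕ → Finset ℕ // ∀ j, Y j ⊆ A j}, (∀ j, (F 0).1 j = ∅) ∧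
      ∀ i, (F (i + 1)).1 = Classical.choose (exists_good n (ρ ^ (i + 1)) B H A (F i).1 (F i).2) :=
    ⟨fun i => Nat.rec ⟨fun _ => ∅, fun j => Finset.empty_subset _⟩ (fun i Y =>
      ⟨Classical.choose (exists_good n (ρ ^ (i + 1)) B H A Y.1 Y.2), fun j =>
        (Classical.choose_spec (exists_good n (ρ ^ (i + 1)) B H A Y.1 Y.2) j).2.1⟩) i,
      fun j => rfl, fun i => rfl⟩
  refine ⟨fun i => (F i).1, hF0, fun i => ?_⟩
  show ∀ l, Good n (ρ ^ (i + 1)) B (H l) A (F (i + 1)).1 (F i).1 l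
  rw [hF i]
  exact Classical.choose_spec (exists_good n (ρ ^ (i + 1)) B H A (F i).1 (F i).2)

section

variable {n k k' : ℕ} {ρ β : ℝ} {A : ℕ → Finset ℕ} {B : Finset (ℕ × ℕ)} {x : ℕ → ℕ → Finset ℕ}
  {H : ℕ → ℕ}

theorem x_mono (hx : ∀ i l, Good n (ρ ^ (i + 1)) B (H l) A (x (i + 1)) (x i) l) {i i' : ℕ}
    (h : i ≤ i') (j : ℕ) : x i j ⊆ x i' j := by
  induction i', h using Nat.le_induction with
  | base => exact Finset.Subset.refl _
  | succ i' _ ih => exact ih.trans (hx i' j).1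

theorem x_sub (hx0 : ∀ j, x 0 j = ∅)
    (hx : ∀ i l, Good n (ρ ^ (i + 1)) B (H l) A (x (i + 1)) (x i) l) (i j : ℕ) : x i j ⊆ A j := by
  rcases Nat.eq_zero_or_pos i with h | h
  · rw [h, hx0]; exact Finset.empty_subset _
  · obtain ⟨i, rfl⟩ : ∃ i', i = i' + 1 := ⟨i - 1, by omega⟩
    exact (hx i j).2.1

theorem x_end (hρ : 1 < ρ) (hH : ∀ l, 0 < H l)
    (hx : ∀ i l, Good n (ρ ^ (i + 1)) B (H l) A (x (i + 1)) (x i) l) :
    ∃ L, ∀ j, x L j = A j := by
  obtain ⟨L, hL⟩ := pow_unbounded_of_one_lt ((n : ℝ) + 1) hρ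
  refine ⟨L + 1, fun j => ?_⟩
  obtain ⟨-, h1, -, h2⟩ := hx L j
  refine Finset.Subset.antisymm h1 ?_
  intro y hy
  by_contra hy2
  have h3 := h2 {y} (by
    intro z hz
    rw [Finset.mem_singleton] at hz
    rw [hz]
    exact Finset.mem_sdiff.2 ⟨hy, hy2⟩)
  rw [Finset.card_singleton, Nat.cast_one, mul_one] at h3
  have h4 : ((((({y} + H j • row B 0) \ ((x (L + 1) j \ x L j) + H j • row B 0)) \
      E B (H j) (x (L + 1)) (x L) j).filter (· ≤ n)).card : ℝ) ≤ (n : ℝ) + 1 := by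
    have h5 : ((((({y} + H j • row B 0) \ ((x (L + 1) j \ x L j) + H j • row B 0)) \
      E B (H j) (x (L + 1)) (x L) j).filter (· ≤ n))).card ≤ (range (n + 1)).card := by
      refine Finset.card_le_card ?_
      intro z hz
      have := (Finset.mem_filter.1 hz).2
      rw [Finset.mem_range]
      omega
    rw [Finset.card_range] at h5
    exact_mod_cast h5
  have h5 : ρ ^ L ≤ (ρ ^ (L + 1)) ^ H j := by
    rw [← pow_mul]
    refine pow_le_pow_right₀ hρ.le ?_
    have := hH j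
    calc L ≤ (L + 1) * 1 := by omega
      _ ≤ (L + 1) * H j := Nat.mul_le_mul_left _ this
  linarith

/-- The gain of one stage, from the mass. -/
theorem mass_stage (hρ : 1 < ρ) (hA : ∀ j, ∀ y ∈ A j, y ≤ n) (h0 : ((0, 0) : ℕ × ℕ) ∈ B)
    (hx0 : ∀ j, x 0 j = ∅) (hx : ∀ i l, Good n (ρ ^ (i + 1)) B (H l) A (x (i + 1)) (x i) l)
    (i l : ℕ) (hkH : k' ≤ H l) (hH : 0 < H l) :
    (ρ ^ i) ^ k' * (((x (i + 1) l).card : ℝ) - ((x i l).card : ℝ)) ≤
      ((T n B k' (x (i + 1)) l).card : ℝ) - ((T n B k' (x i) l).card : ℝ) := by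
  classical
  rcases Nat.eq_zero_or_pos i with h | h
  · subst h
    rw [T_empty hx0, hx0]
    simp only [pow_zero, one_pow, one_mul, Finset.card_empty, Nat.cast_zero, sub_zero]
    have h2 : x (0 + 1) l ⊆ T n B k' (x (0 + 1)) l := by
      intro y hy
      rw [mem_T]
      refine ⟨⟨l, le_rfl, ?_⟩, hA l y (x_sub hx0 hx _ _ hy)⟩
      rw [Nat.sub_self]
      have h3 : y = y + 0 := rfl
      rw [h3]
      exact Finset.add_mem_add hy (zero_mem_row h0 k')
    exact_mod_cast Finset.card_le_card h2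
  · obtain ⟨i, rfl⟩ : ∃ i', i = i' + 1 := ⟨i - 1, by omega⟩
    obtain ⟨S, hS⟩ : ∃ S, S = x (i + 1 + 1) l \ x (i + 1) l := ⟨_, rfl⟩
    have h3 : ((S.card : ℝ)) = ((x (i + 1 + 1) l).card : ℝ) - ((x (i + 1) l).card : ℝ) := by
      have h4 := Finset.card_sdiff_add_card_eq_card (hx (i + 1) l).1
      have h5 : (((x (i + 1 + 1) l \ x (i + 1) l).card : ℝ)) + ((x (i + 1) l).card : ℝ) =
        ((x (i + 1 + 1) l).card : ℝ) := by exact_mod_cast h4
      rw [hS]
      linarith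
    rw [← h3]
    obtain ⟨al, hal⟩ : ∃ al : ℕ → ℕ → Prop, al = fun t z => z ≤ n ∧ (t ≠ 0 → z ∉ T n B t (x (i + 1)) l) :=
      ⟨_, rfl⟩
    have halp : ∀ t z b, b ∈ row B 0 → al (t + 1) (z + b) → al t z := by
      intro t z b hb h1
      rw [hal] at h1 ⊢
      obtain ⟨h1, h2⟩ := h1
      refine ⟨by omega, fun h3 h4 => h2 (Nat.succ_ne_zero t) (T_succ h4 hb h1)⟩
    have hSA : S ⊆ A l \ x (i + 1) l := by
      rw [hS]
      exact Finset.sdiff_subset_sdiff (x_sub hx0 hx _ _) (Finset.Subset.refl _)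
    have hpl := pluennecke S (row B 0) al halp (H l) hH (ρ ^ (i + 1)) (by positivity) (by
      intro Y hY
      refine ((hx i l).2.2.2 Y (hY.trans hSA)).trans ?_
      have h6 : ((((Y + H l • row B 0) \ ((x (i + 1) l \ x i l) + H l • row B 0)) \
          E B (H l) (x (i + 1)) (x i) l).filter (· ≤ n)) ⊆ It (row B 0) al (H l) Y := by
        intro y hy
        rw [Finset.mem_filter, Finset.mem_sdiff, Finset.mem_sdiff, mem_E] at hy
        obtain ⟨⟨⟨hy1, hy2⟩, hy3⟩, hn⟩ := hy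
        rw [mem_It' halp]
        refine ⟨hy1, Or.inr ?_⟩
        rw [hal]
        refine ⟨hn, fun _ hy4 => ?_⟩
        rw [mem_T] at hy4
        obtain ⟨⟨l', hl', hy4⟩, -⟩ := hy4
        apply hy3
        rcases Nat.lt_or_eq_of_le hl' with h7 | h7
        · exact Or.inl ⟨l', h7, hy4⟩
        · right
          subst h7
          rw [Nat.sub_self] at hy4
          obtain ⟨z, hz, b, hb, rfl⟩ := Finset.mem_add.1 hy4
          by_cases hz2 : z ∈ x i l'
          · exact Finset.add_mem_add hz2 hb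
          · rw [row_zero_eq] at hb
            exact absurd (Finset.add_mem_add (Finset.mem_sdiff.2 ⟨hz, hz2⟩) hb) hy2
      exact_mod_cast Finset.card_le_card h6) k' hkH
    refine hpl.trans ?_
    have h4 : T n B k' (x (i + 1)) l ⊆ T n B k' (x (i + 1 + 1)) l := T_mono (fun j => (hx (i + 1) j).1) l
    have h5 : (((T n B k' (x (i + 1 + 1)) l \ T n B k' (x (i + 1)) l).card : ℝ)) =
        ((T n B k' (x (i + 1 + 1)) l).card : ℝ) - ((T n B k' (x (i + 1)) l).card : ℝ) := by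
      have h6 := Finset.card_sdiff_add_card_eq_card h4
      have h7 : (((T n B k' (x (i + 1 + 1)) l \ T n B k' (x (i + 1)) l).card : ℝ)) +
        ((T n B k' (x (i + 1)) l).card : ℝ) = ((T n B k' (x (i + 1 + 1)) l).card : ℝ) := by
        exact_mod_cast h6
      linarith
    rw [← h5]
    have h6 : It (row B 0) al k' S ⊆ T n B k' (x (i + 1 + 1)) l \ T n B k' (x (i + 1)) l := by
      intro y hy
      rw [mem_It' halp] at hy
      obtain ⟨hy1, hy2⟩ := hy
      have hy3 : y ≤ n ∧ y ∉ T n B k' (x (i + 1)) l := by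
        rcases Nat.eq_zero_or_pos k' with hk | hk
        · subst hk
          rw [zero_nsmul, add_zero] at hy1
          have hy4 := Finset.mem_sdiff.1 (hSA hy1)
          refine ⟨hA l y hy4.1, fun hy5 => ?_⟩
          rw [mem_T] at hy5
          obtain ⟨⟨l', hl', hy5⟩, -⟩ := hy5
          obtain ⟨a, ha, b, hb, hab⟩ := Finset.mem_add.1 hy5
          rw [mem_row, zero_nsmul, Finset.mem_zero] at hb
          have hb1 : b = 0 := congrArg Prod.fst hb
          have hb2 : l - l' = 0 := congrArg Prod.snd hb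
          have hl2 : l' = l := by omega
          subst hl2
          subst hb1
          rw [add_zero] at hab
          rw [hab] at ha
          exact hy4.2 ha
        · rcases hy2 with hy2 | hy2
          · omega
          · rw [hal] at hy2
            exact ⟨hy2.1, hy2.2 (by omega)⟩
      rw [Finset.mem_sdiff]
      refine ⟨?_, hy3.2⟩
      rw [mem_T]
      refine ⟨⟨l, le_rfl, ?_⟩, hy3.1⟩
      rw [Nat.sub_self, row_zero_eq]
      exact Finset.add_subset_add_right (by rw [hS]; exact Finset.sdiff_subset) hy1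
    exact_mod_cast Finset.card_le_card h6

/-- The positions which are covered in row `j`. -/
def P (X : ℕ → Finset ℕ) (j z : ℕ) : Prop := ∃ l ≤ j, ∃ y ∈ X l, y ≤ z

open Classical in
/-- The coverage. -/
theorem cover (hA : ∀ j, ∀ y ∈ A j, y ≤ n) {X : ℕ → Finset ℕ} (hX : ∀ j, X j ⊆ A j) {j : ℕ}
    (hC : ∀ r ≤ j, ∀ z ≤ n, β * ((z : ℝ) + 1) ≤ (((row (k • B) r).filter (· ≤ z)).card : ℝ))
    (hβ : 0 ≤ β) :
    β * (((range (n + 1)).filter (P X j)).card : ℝ) ≤ ((T n B k X j).card : ℝ) := by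
  by_cases hne : ∃ l ≤ j, (X l).Nonempty
  · obtain ⟨S, hS⟩ : ∃ S, S = (range (j + 1)).biUnion X := ⟨_, rfl⟩
    have hSn : S.Nonempty := by
      obtain ⟨l, hl, y, hy⟩ := hne
      exact ⟨y, by rw [hS]; exact Finset.mem_biUnion.2 ⟨l, Finset.mem_range.2 (by omega), hy⟩⟩
    obtain ⟨y0, hy0, hmin⟩ : ∃ y0 ∈ S, ∀ y ∈ S, y0 ≤ y :=
      ⟨S.min' hSn, S.min'_mem hSn, fun y hy => S.min'_le y hy⟩
    rw [hS] at hy0
    obtain ⟨l, hl, hyl⟩ := Finset.mem_biUnion.1 hy0
    rw [Finset.mem_range] at hl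
    have hy0n : y0 ≤ n := hA l y0 (hX l hyl)
    have h1 : ((range (n + 1)).filter (P X j)) ⊆ Finset.Icc y0 n := by
      intro z hz
      rw [Finset.mem_filter, Finset.mem_range] at hz
      obtain ⟨hz1, l', hl', y, hy, hyz⟩ := hz
      rw [Finset.mem_Icc]
      have := hmin y (by rw [hS]; exact Finset.mem_biUnion.2 ⟨l', Finset.mem_range.2 (by omega), hy⟩)
      omega
    have h2 : (((row (k • B) (j - l)).filter (· ≤ n - y0)).image fun z => y0 + z) ⊆ T n B k X j := by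
      intro z hz
      obtain ⟨w, hw, rfl⟩ := Finset.mem_image.1 hz
      rw [Finset.mem_filter] at hw
      rw [mem_T]
      exact ⟨⟨l, by omega, Finset.add_mem_add hyl hw.1⟩, by omega⟩
    have h3 := Finset.card_le_card h1
    rw [Nat.card_Icc] at h3
    have h4 := Finset.card_le_card h2
    rw [Finset.card_image_of_injective _ (fun a b h => Nat.add_left_cancel h)] at h4
    have h5 := hC (j - l) (by omega) (n - y0) (by omega)
    have h6 : (((range (n + 1)).filter (P X j)).card : ℝ) ≤ ((n - y0 : ℕ) : ℝ) + 1 := by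
      have : ((range (n + 1)).filter (P X j)).card ≤ (n - y0) + 1 := by omega
      exact_mod_cast this
    calc β * (((range (n + 1)).filter (P X j)).card : ℝ) ≤ β * (((n - y0 : ℕ) : ℝ) + 1) :=
          mul_le_mul_of_nonneg_left h6 hβ
      _ ≤ _ := h5
      _ ≤ _ := by exact_mod_cast h4
  · have h1 : ((range (n + 1)).filter (P X j)) = ∅ := by
      rw [Finset.eq_empty_iff_forall_notMem]
      intro z hz
      rw [Finset.mem_filter] at hz
      obtain ⟨-, l, hl, y, hy, -⟩ := hz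
      exact hne ⟨l, hl, y, hy⟩
    rw [h1]
    simp

open Classical in
/-- The entry times for the row `i`, and the two bounds. -/
theorem level (i : ℕ) (hρ : 1 < ρ) (hA : ∀ j, ∀ y ∈ A j, y ≤ n) (h0 : ((0, 0) : ℕ × ℕ) ∈ B)
    (hA0 : 0 ∈ A 0) (hβ : 0 ≤ β) (hk' : 0 < k') (hi : i ≤ k') (hik : k' + i ≤ k)
    (hC : ∀ r ≤ i, ∀ z ≤ n, β * ((z : ℝ) + 1) ≤ (((row (k • B) r).filter (· ≤ z)).card : ℝ)) :
    ∃ ι : ℕ → ℕ, (∀ z z', z ≤ z' → ι z' ≤ ι z) ∧
      (∀ j ≤ i, ∑ y ∈ A j, (ρ ^ ι y) ^ k' ≤ ((T n B k' A j).card : ℝ)) ∧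
      β * ∑ z ∈ range (n + 1), ((ρ * ρ ^ ι z) ^ (k - k'))⁻¹ ≤ ((T n B k' A i).card : ℝ) := by
  have hρ0 : (0 : ℝ) < ρ := by linarith
  obtain ⟨H, hHd⟩ : ∃ H : ℕ → ℕ, H = fun l => k - (i - l) := ⟨_, rfl⟩
  have hH : ∀ l, 0 < H l := by
    intro l
    rw [hHd]
    show 0 < k - (i - l)
    omega
  obtain ⟨x, hx0, hx⟩ := exists_chain n ρ H A B
  obtain ⟨L, hL⟩ := x_end hρ hH hx
  have hLx : x L = A := funext hL
  have hL0 : L ≠ 0 := by
    intro h
    have h1 := hL 0
    rw [h, hx0] at h1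
    rw [← h1] at hA0
    simp at hA0
  -- the entry times
  have hPm : ∀ {a b : ℕ}, a ≤ b → ∀ {z : ℕ}, P (x a) i z → P (x b) i z := by
    rintro a b h z ⟨l, hl, y, hy, hyz⟩
    exact ⟨l, hl, y, x_mono hx h l hy, hyz⟩
  have hP0 : ∀ z, ¬ P (x 0) i z := by
    rintro z ⟨l, hl, y, hy, -⟩
    rw [hx0] at hy
    simp at hy
  have hPL : ∀ z, P (x L) i z := fun z => ⟨0, Nat.zero_le _, 0, by rw [hL]; exact hA0, Nat.zero_le _⟩
  have hex : ∀ z, ∃ a, P (x (a + 1)) i z := fun z =>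
    ⟨L - 1, by rw [Nat.sub_add_cancel (Nat.one_le_iff_ne_zero.2 hL0)]; exact hPL z⟩
  obtain ⟨ι, hι⟩ : ∃ ι : ℕ → ℕ, ι = fun z => Nat.find (hex z) := ⟨_, rfl⟩
  have hι1 : ∀ z a, ι z < a → P (x a) i z := by
    intro z a ha
    have h1 := Nat.find_spec (hex z)
    rw [hι] at ha
    exact hPm ha h1
  have hι2 : ∀ z a, a ≤ ι z → ¬ P (x a) i z := by
    intro z a ha h
    rcases Nat.eq_zero_or_pos a with h1 | h1
    · rw [h1] at h
      exact hP0 z h
    · obtain ⟨a, rfl⟩ : ∃ a', a = a' + 1 := ⟨a - 1, by omega⟩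
      rw [hι] at ha
      exact Nat.find_min (hex z) ha h
  refine ⟨ι, ?_, ?_, ?_⟩
  · intro z z' h
    by_contra hlt
    push Not at hlt
    apply hι2 z' (ι z + 1) hlt
    obtain ⟨l, hl, y, hy, hyz⟩ := hι1 z (ι z + 1) (Nat.lt_succ_self _)
    exact ⟨l, hl, y, hy, hyz.trans h⟩
  · -- the mass bound
    intro j hj
    have hr : ((T n B k' A j).card : ℝ) = ∑ a ∈ range L,
        (((T n B k' (x (a + 1)) j).card : ℝ) - ((T n B k' (x a) j).card : ℝ)) := by
      rw [Finset.sum_range_sub (fun a => ((T n B k' (x a) j).card : ℝ)), hLx, T_empty hx0]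
      simp
    rw [hr]
    have h1 : ∀ a ∈ range L, ∑ y ∈ A j, (ρ ^ a) ^ k' * ((if y ∈ x (a + 1) j then (1 : ℝ) else 0) -
        (if y ∈ x a j then (1 : ℝ) else 0)) ≤
        (((T n B k' (x (a + 1)) j).card : ℝ) - ((T n B k' (x a) j).card : ℝ)) := by
      intro a _
      refine le_trans (le_of_eq ?_) (mass_stage hρ hA h0 hx0 hx a j (by
        rw [hHd]
        show k' ≤ k - (i - j)
        omega) (hH j))
      rw [← Finset.mul_sum, Finset.sum_sub_distrib, Finset.sum_ite_mem, Finset.sum_ite_mem,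
        Finset.inter_eq_right.2 (x_sub hx0 hx _ _), Finset.inter_eq_right.2 (x_sub hx0 hx _ _)]
      simp
    refine le_trans ?_ (Finset.sum_le_sum h1)
    rw [Finset.sum_comm]
    refine Finset.sum_le_sum fun y hy => ?_
    refine jump (fun a => (ρ ^ a) ^ k') (fun a => if y ∈ x a j then (1 : ℝ) else 0)
      ?_ ?_ L (ι y) ?_ ?_
    · intro a b hab
      exact pow_le_pow_left₀ (by positivity) (pow_le_pow_right₀ hρ.le hab) k'
    · intro a b hab
      show (if y ∈ x a j then (1 : ℝ) else 0) ≤ (if y ∈ x b j then (1 : ℝ) else 0)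
      by_cases h2 : y ∈ x a j
      · rw [if_pos h2, if_pos (x_mono hx hab j h2)]
      · rw [if_neg h2]
        split_ifs <;> norm_num
    · intro a ha
      show (if y ∈ x a j then (1 : ℝ) else 0) = 0
      rw [if_neg]
      intro h2
      exact hι2 y a ha ⟨j, hj, y, h2, le_rfl⟩
    · show (if y ∈ x L j then (1 : ℝ) else 0) = 1
      rw [if_pos (by rw [hL]; exact hy)]
  · -- the coverage bound
    have hr : ((T n B k' A i).card : ℝ) = ∑ a ∈ range L,
        (((T n B k' (x (a + 1)) i).card : ℝ) - ((T n B k' (x a) i).card : ℝ)) := by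
      rw [Finset.sum_range_sub (fun a => ((T n B k' (x a) i).card : ℝ)), hLx, T_empty hx0]
      simp
    rw [hr]
    obtain ⟨w, hw⟩ : ∃ w : ℕ → ℝ, w = fun a => ((ρ * ρ ^ a) ^ (k - k'))⁻¹ := ⟨_, rfl⟩
    have hwpos : ∀ a, 0 < w a := by
      intro a
      rw [hw]
      positivity
    have hwa : Antitone w := by
      intro a b hab
      rw [hw]
      have h1 : ρ ^ a ≤ ρ ^ b := pow_le_pow_right₀ hρ.le hab
      have h2 : (ρ * ρ ^ a) ^ (k - k') ≤ (ρ * ρ ^ b) ^ (k - k') :=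
        pow_le_pow_left₀ (by positivity) (mul_le_mul_of_nonneg_left h1 hρ0.le) (k - k')
      exact inv_anti₀ (by positivity) h2
    obtain ⟨G, hG⟩ : ∃ G : ℕ → ℝ, G = fun a => ((T n B k (x a) i).card : ℝ) := ⟨_, rfl⟩
    obtain ⟨g, hg⟩ : ∃ g : ℕ → ℝ, g = fun a =>
      β * (((range (n + 1)).filter (P (x a) i)).card : ℝ) := ⟨_, rfl⟩
    have h1 : ∀ a ∈ range L, w a * (G (a + 1) - G a) ≤
        (((T n B k' (x (a + 1)) i).card : ℝ) - ((T n B k' (x a) i).card : ℝ)) := by
      intro a _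
      have h2 := T_step (K := ρ ^ (a + 1)) (k := k) (k' := k') (by positivity) hk' hi hik
        (fun l _ => by
          have h3 := hx a l
          rw [hHd] at h3
          exact h3) (fun l => (hx a l).1)
      rw [hG, hw]
      show ((ρ * ρ ^ a) ^ (k - k'))⁻¹ * (((T n B k (x (a + 1)) i).card : ℝ) -
        ((T n B k (x a) i).card : ℝ)) ≤ _
      have h3 : ρ * ρ ^ a = ρ ^ (a + 1) := by ring
      rw [h3, inv_mul_le_iff₀ (by positivity)]
      exact h2
    refine le_trans ?_ (Finset.sum_le_sum h1)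
    have hG0 : G 0 = 0 := by
      rw [hG]
      show ((T n B k (x 0) i).card : ℝ) = 0
      rw [T_empty hx0]
      simp
    have hg0 : g 0 = 0 := by
      rw [hg]
      have h1 : ((range (n + 1)).filter (P (x 0) i)) = ∅ := by
        rw [Finset.filter_eq_empty_iff]
        intro z _
        exact hP0 z
      show β * (((range (n + 1)).filter (P (x 0) i)).card : ℝ) = 0
      rw [h1]
      simp
    have h2 := abel_le w (fun a => G (a + 1) - G a) (fun a => g (a + 1) - g a) hwa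
      (fun a => (hwpos a).le) L (by
        intro a _
        rw [Finset.sum_range_sub, Finset.sum_range_sub, hG0, hg0, sub_zero, sub_zero, hG, hg]
        exact cover hA (x_sub hx0 hx a) hC hβ)
    refine le_trans ?_ h2
    have h3 : ∀ a, g (a + 1) - g a = ∑ z ∈ range (n + 1), β * ((if P (x (a + 1)) i z then (1 : ℝ) else 0) -
        (if P (x a) i z then (1 : ℝ) else 0)) := by
      intro a
      rw [hg, ← Finset.mul_sum, Finset.sum_sub_distrib, Finset.sum_boole, Finset.sum_boole]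
      ring
    have h4 : ∑ a ∈ range L, w a * (g (a + 1) - g a) = ∑ z ∈ range (n + 1), β *
        ∑ a ∈ range L, w a * ((if P (x (a + 1)) i z then (1 : ℝ) else 0) -
        (if P (x a) i z then (1 : ℝ) else 0)) := by
      rw [Finset.sum_congr rfl fun a _ => by rw [h3 a, Finset.mul_sum], Finset.sum_comm]
      refine Finset.sum_congr rfl fun z _ => ?_
      rw [Finset.mul_sum]
      exact Finset.sum_congr rfl fun a _ => by ring
    rw [h4, Finset.mul_sum]
    refine Finset.sum_le_sum fun z _ => mul_le_mul_of_nonneg_left ?_ hβ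
    have h5 := jump' w (fun a => if P (x a) i z then (1 : ℝ) else 0) hwa (by
      intro a b hab
      show (if P (x a) i z then (1 : ℝ) else 0) ≤ (if P (x b) i z then (1 : ℝ) else 0)
      by_cases h2 : P (x a) i z
      · rw [if_pos h2, if_pos (hPm hab h2)]
      · rw [if_neg h2]
        split_ifs <;> norm_num) L (ι z) (by
      show (if P (x 0) i z then (1 : ℝ) else 0) = 0
      rw [if_neg (hP0 z)]) (by
      intro a ha
      show (if P (x a) i z then (1 : ℝ) else 0) = 1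
      rw [if_pos (hι1 z a ha)]) (by
      show (if P (x L) i z then (1 : ℝ) else 0) = 1
      rw [if_pos (hPL z)])
    rw [hw] at h5 ⊢
    exact h5

end

end Pool.Agent.Lib_helper37.RD
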