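import Pool.Agent.Lib_helper37.RD.Core

/-!
# The inequality in a box
-/

set_option autoImplicit false

open Pointwise Finset Filter Topology

namespace Pool.Agent.Lib_helper37.RD

theorem box_rho (n m k k' : ℕ) (ρ α β : ℝ) (A : ℕ → Finset ℕ) (B : Finset (ℕ × ℕ))
    (hρ : 1 < ρ) (hA : ∀ j, ∀ y ∈ A j, y ≤ n) (h0 : ((0, 0) : ℕ × ℕ) ∈ B) (hA0 : 0 ∈ A 0)
    (hα : 0 ≤ α) (hβ : 0 ≤ β) (hk' : 0 < k') (hm : m ≤ k') (hmk : k' + m ≤ k)
    (hdA : ∀ i ≤ m, ∀ z ≤ n, α * ((i : ℝ) + 1) * ((z : ℝ) + 1) ≤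
      ∑ j ∈ range (i + 1), (((A j).filter (· ≤ z)).card : ℝ))
    (hC : ∀ r ≤ m, ∀ z ≤ n, β * ((z : ℝ) + 1) ≤ (((row (k • B) r).filter (· ≤ z)).card : ℝ)) :
    α ^ (1 - (k' : ℝ) / (k : ℝ)) * β ^ ((k' : ℝ) / (k : ℝ)) *
      (ρ ^ (((k : ℝ) - (k' : ℝ)) * (k' : ℝ) / (k : ℝ)))⁻¹ * ((n : ℝ) + 1) * ((m : ℝ) + 1) ≤
      ∑ j ∈ range (m + 1), ((T n B k' A j).card : ℝ) := by
  classical
  have hk'R : (0 : ℝ) < (k' : ℝ) := by exact_mod_cast hk'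
  have hkk : (k' : ℝ) ≤ (k : ℝ) := by
    have : k' ≤ k := by omega
    exact_mod_cast this
  have hlev : ∀ i, ∃ ι : ℕ → ℕ, i ≤ m → (∀ z z', z ≤ z' → ι z' ≤ ι z) ∧
      (∀ j ≤ i, ∑ y ∈ A j, (ρ ^ ι y) ^ k' ≤ ((T n B k' A j).card : ℝ)) ∧
      β * ∑ z ∈ range (n + 1), ((ρ * ρ ^ ι z) ^ (k - k'))⁻¹ ≤ ((T n B k' A i).card : ℝ) := by
    intro i
    by_cases hi : i ≤ m
    · obtain ⟨ι, h⟩ := level i hρ hA h0 hA0 hβ hk' (by omega : i ≤ k') (by omega : k' + i ≤ k)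
        (fun r hr z hz => hC r (by omega) z hz)
      exact ⟨ι, fun _ => h⟩
    · exact ⟨fun _ => 0, fun h => absurd h hi⟩
  choose ι hι using hlev
  refine lp n m ((k : ℝ) / (k' : ℝ)) ((one_le_div hk'R).2 hkk)
    (fun j => ((T n B k' A j).card : ℝ)) (fun i => ∑ z ∈ range (n + 1), (ρ ^ ι i z) ^ k')
    (fun j => ∑ z ∈ range (n + 1), ((ρ * ρ ^ ι j z) ^ (k - k'))⁻¹)
    (fun j i => ∑ y ∈ A j, (ρ ^ ι i y) ^ k') α β _ (fun i hi j hj => (hι i hi).2.1 j hj)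
    (fun j hj => (hι j hj).2.2) ?_ ?_
  · intro i hi
    show α * ((i : ℝ) + 1) * ∑ z ∈ range (n + 1), (ρ ^ ι i z) ^ k' ≤
      ∑ j ∈ range (i + 1), ∑ y ∈ A j, (ρ ^ ι i y) ^ k'
    have h1 : ∀ j ∈ range (i + 1), ∑ y ∈ A j, (ρ ^ ι i y) ^ k' =
        ∑ z ∈ range (n + 1), (ρ ^ ι i z) ^ k' * (if z ∈ A j then (1 : ℝ) else 0) := by
      intro j _
      rw [← Finset.sum_filter_add_sum_filter_not (range (n + 1)) (fun z => z ∈ A j)]
      have h2 : ∑ z ∈ (range (n + 1)).filter (fun z => ¬ z ∈ A j),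
          (ρ ^ ι i z) ^ k' * (if z ∈ A j then (1 : ℝ) else 0) = 0 := by
        refine Finset.sum_eq_zero fun z hz => ?_
        rw [if_neg (Finset.mem_filter.1 hz).2, mul_zero]
      have h3 : ∑ z ∈ (range (n + 1)).filter (fun z => z ∈ A j),
          (ρ ^ ι i z) ^ k' * (if z ∈ A j then (1 : ℝ) else 0) = ∑ y ∈ A j, (ρ ^ ι i y) ^ k' := by
        have h4 : (range (n + 1)).filter (fun z => z ∈ A j) = A j := by
          ext z
          rw [Finset.mem_filter, Finset.mem_range]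
          exact ⟨fun h => h.2, fun h => ⟨by have := hA j z h; omega, h⟩⟩
        rw [h4]
        exact Finset.sum_congr rfl fun z hz => by rw [if_pos hz, mul_one]
      rw [h2, h3, add_zero]
    rw [Finset.sum_congr rfl h1, Finset.sum_comm]
    have h2 : ∀ z ∈ range (n + 1), ∑ j ∈ range (i + 1), (ρ ^ ι i z) ^ k' *
        (if z ∈ A j then (1 : ℝ) else 0) =
        (ρ ^ ι i z) ^ k' * ∑ j ∈ range (i + 1), (if z ∈ A j then (1 : ℝ) else 0) := by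
      intro z _
      rw [Finset.mul_sum]
    rw [Finset.sum_congr rfl h2]
    have h3 := abel_le (fun z => (ρ ^ ι i z) ^ k')
      (fun z => ∑ j ∈ range (i + 1), (if z ∈ A j then (1 : ℝ) else 0))
      (fun _ => α * ((i : ℝ) + 1)) (by
        intro a b hab
        exact pow_le_pow_left₀ (by positivity) (pow_le_pow_right₀ hρ.le ((hι i hi).1 a b hab)) k')
      (fun z => by positivity) (n + 1) (by
        intro y hy
        rw [Finset.sum_const, Finset.card_range, nsmul_eq_mul]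
        rcases Nat.eq_zero_or_pos y with h4 | h4
        · rw [h4]
          simp
        · obtain ⟨y, rfl⟩ : ∃ y', y = y' + 1 := ⟨y - 1, by omega⟩
          have h5 := hdA i hi y (by omega)
          rw [Finset.sum_comm]
          have h6 : ∀ j ∈ range (i + 1), ∑ z ∈ range (y + 1), (if z ∈ A j then (1 : ℝ) else 0) =
              (((A j).filter (· ≤ y)).card : ℝ) := by
            intro j _
            rw [Finset.sum_boole]
            congr 2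
            ext z
            simp only [Finset.mem_filter, Finset.mem_range]
            constructor
            · rintro ⟨h7, h8⟩; exact ⟨h8, by omega⟩
            · rintro ⟨h7, h8⟩; exact ⟨by omega, h7⟩
          rw [Finset.sum_congr rfl h6]
          refine le_trans (le_of_eq ?_) h5
          push_cast
          ring)
    refine le_trans (le_of_eq ?_) h3
    rw [Finset.mul_sum]
    exact Finset.sum_congr rfl fun z _ => by ring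
  · intro i _
    show (k : ℝ) / (k' : ℝ) * (α ^ (1 - (k' : ℝ) / (k : ℝ)) * β ^ ((k' : ℝ) / (k : ℝ)) *
      (ρ ^ (((k : ℝ) - (k' : ℝ)) * (k' : ℝ) / (k : ℝ)))⁻¹) * ((n : ℝ) + 1) ≤
      ((k : ℝ) / (k' : ℝ) - 1) * α * ∑ z ∈ range (n + 1), (ρ ^ ι i z) ^ k' +
        β * ∑ z ∈ range (n + 1), ((ρ * ρ ^ ι i z) ^ (k - k'))⁻¹
    have h1 : ((k : ℝ) / (k' : ℝ) - 1) * α * ∑ z ∈ range (n + 1), (ρ ^ ι i z) ^ k' +
        β * ∑ z ∈ range (n + 1), ((ρ * ρ ^ ι i z) ^ (k - k'))⁻¹ =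
        ∑ z ∈ range (n + 1), (((k : ℝ) / (k' : ℝ) - 1) * (α * (ρ ^ ι i z) ^ k') +
          β * ((ρ * ρ ^ ι i z) ^ (k - k'))⁻¹) := by
      rw [Finset.sum_add_distrib, Finset.mul_sum, Finset.mul_sum]
      congr 1
      exact Finset.sum_congr rfl fun z _ => by ring
    rw [h1]
    have h2 : ∑ _z ∈ range (n + 1), (k : ℝ) / (k' : ℝ) * (α ^ (1 - (k' : ℝ) / (k : ℝ)) *
        β ^ ((k' : ℝ) / (k : ℝ)) * (ρ ^ (((k : ℝ) - (k' : ℝ)) * (k' : ℝ) / (k : ℝ)))⁻¹) =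
        (k : ℝ) / (k' : ℝ) * (α ^ (1 - (k' : ℝ) / (k : ℝ)) * β ^ ((k' : ℝ) / (k : ℝ)) *
      (ρ ^ (((k : ℝ) - (k' : ℝ)) * (k' : ℝ) / (k : ℝ)))⁻¹) * ((n : ℝ) + 1) := by
      rw [Finset.sum_const, Finset.card_range, nsmul_eq_mul]
      push_cast
      ring
    rw [← h2]
    exact Finset.sum_le_sum fun z _ => amgm k k' hk' (by omega) α β ρ (ρ ^ ι i z) hα hβ
      (by linarith) (by positivity)

theorem box (n m k k' : ℕ) (α β : ℝ) (A : ℕ → Finset ℕ) (B : Finset (ℕ × ℕ))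
    (hA : ∀ j, ∀ y ∈ A j, y ≤ n) (h0 : ((0, 0) : ℕ × ℕ) ∈ B) (hA0 : 0 ∈ A 0)
    (hα : 0 ≤ α) (hβ : 0 ≤ β) (hk' : 0 < k') (hm : m ≤ k') (hmk : k' + m ≤ k)
    (hdA : ∀ i ≤ m, ∀ z ≤ n, α * ((i : ℝ) + 1) * ((z : ℝ) + 1) ≤
      ∑ j ∈ range (i + 1), (((A j).filter (· ≤ z)).card : ℝ))
    (hC : ∀ r ≤ m, ∀ z ≤ n, β * ((z : ℝ) + 1) ≤ (((row (k • B) r).filter (· ≤ z)).card : ℝ)) :
    α ^ (1 - (k' : ℝ) / (k : ℝ)) * β ^ ((k' : ℝ) / (k : ℝ)) * ((n : ℝ) + 1) * ((m : ℝ) + 1) ≤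
      ∑ j ∈ range (m + 1), ((T n B k' A j).card : ℝ) := by
  obtain ⟨e, he⟩ : ∃ e, e = ((k : ℝ) - (k' : ℝ)) * (k' : ℝ) / (k : ℝ) := ⟨_, rfl⟩
  have h1 : Tendsto (fun ρ : ℝ => α ^ (1 - (k' : ℝ) / (k : ℝ)) * β ^ ((k' : ℝ) / (k : ℝ)) *
      (ρ ^ e)⁻¹ * ((n : ℝ) + 1) * ((m : ℝ) + 1)) (𝓝[>] 1)
      (𝓝 (α ^ (1 - (k' : ℝ) / (k : ℝ)) * β ^ ((k' : ℝ) / (k : ℝ)) *
      ((1 : ℝ) ^ e)⁻¹ * ((n : ℝ) + 1) * ((m : ℝ) + 1))) := by
    have h2 : ContinuousAt (fun ρ : ℝ => ρ ^ e) 1 := Real.continuousAt_rpow_const 1 e (Or.inl one_ne_zero)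
    have h3 : ContinuousAt (fun ρ : ℝ => (ρ ^ e)⁻¹) 1 := h2.inv₀ (by rw [Real.one_rpow]; exact one_ne_zero)
    exact (((h3.tendsto.const_mul _).mul_const _).mul_const _).mono_left nhdsWithin_le_nhds
  rw [Real.one_rpow, inv_one, mul_one] at h1
  refine le_of_tendsto h1 ?_
  filter_upwards [self_mem_nhdsWithin] with ρ hρ
  have h2 := box_rho n m k k' ρ α β A B hρ hA h0 hA0 hα hβ hk' hm hmk hdA hC
  rw [← he] at h2
  exact h2

end Pool.Agent.Lib_helper37.RD
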