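import Mathlib

/-!
# A relative form of Petridis' inequality, truncated at `n`
-/

set_option autoImplicit false

open Pointwise Finset

namespace Pool.Agent.Lib_helper37.RD

/-- If `Z` has small growth relative to the dead set `E` (also in the quotient by each subset `W`), then so does
`Z + C`, for the dead sets `D` (before) and `F` (after the addition of `B`). -/
theorem petr (n : ℕ) (K : ℝ) (hK : 0 ≤ K) (Z B E D F : Finset ℕ)
    (h1 : ∀ W ⊆ Z, (((((Z + B) \ (W + B)) \ E).filter (· ≤ n)).card : ℝ) ≤ K * ((Z \ W).card : ℝ))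
    (h2 : ∀ d ∈ D, ∀ b ∈ B, d + b ≤ n → d + b ∈ F) (C : Finset ℕ)
    (h3 : ∀ e ∈ E, ∀ c ∈ C, e + c ≤ n → e + c ∈ F) :
    ((((Z + B + C) \ F).filter (· ≤ n)).card : ℝ) ≤ K * ((((Z + C) \ D).filter (· ≤ n)).card : ℝ) := by
  classical
  induction C using Finset.induction_on with
  | empty => simp
  | insert c C' hc ih =>
    have ih' := ih fun e he c' hc' => h3 e he c' (Finset.mem_insert_of_mem hc')
    obtain ⟨W, hW⟩ : ∃ W, W = Z.filter fun x => x + c ∈ Z + C' ∨ x + c ∈ D ∨ n < x + c := ⟨_, rfl⟩
    have hWZ : W ⊆ Z := by rw [hW]; exact Finset.filter_subset _ _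
    have hN : (((Z + B + insert c C') \ F).filter (· ≤ n)) ⊆
        (((Z + B + C') \ F).filter (· ≤ n)) ∪
          ((((Z + B) \ (W + B)) \ E).filter (· ≤ n)).image (fun y => y + c) := by
      intro y hy
      rw [Finset.mem_filter, Finset.mem_sdiff] at hy
      obtain ⟨⟨hy1, hyF⟩, hyn⟩ := hy
      rw [Finset.mem_union]
      by_cases hyC : y ∈ Z + B + C'
      · left
        rw [Finset.mem_filter, Finset.mem_sdiff]
        exact ⟨⟨hyC, hyF⟩, hyn⟩
      · right
        obtain ⟨zb, hzb, c', hc', rfl⟩ := Finset.mem_add.1 hy1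
        rw [Finset.mem_insert] at hc'
        rcases hc' with rfl | hc'
        · refine Finset.mem_image.2 ⟨zb, ?_, rfl⟩
          rw [Finset.mem_filter, Finset.mem_sdiff, Finset.mem_sdiff]
          refine ⟨⟨⟨hzb, ?_⟩, ?_⟩, by omega⟩
          · intro hwb
            obtain ⟨w, hw, b, hb, hwb'⟩ := Finset.mem_add.1 hwb
            rw [hW, Finset.mem_filter] at hw
            rcases hw.2 with h | h | h
            · apply hyC
              obtain ⟨z, hz, c'', hc'', hzc⟩ := Finset.mem_add.1 h
              rw [← hwb']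
              have : w + b + c' = z + b + c'' := by omega
              rw [this]
              exact Finset.add_mem_add (Finset.add_mem_add hz hb) hc''
            · apply hyF
              have h5 := h2 _ h b hb (by omega)
              have : zb + c' = w + c' + b := by omega
              rw [this]
              exact h5
            · omega
          · intro hE
            exact hyF (h3 zb hE c' (Finset.mem_insert_self _ _) hyn)
        · exact absurd (Finset.add_mem_add hzb hc') hyC
    have hN2 : ((((Z + B + insert c C') \ F).filter (· ≤ n)).card : ℝ) ≤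
        ((((Z + B + C') \ F).filter (· ≤ n)).card : ℝ) + K * ((Z \ W).card : ℝ) := by
      have h5 := Finset.card_le_card hN
      have h6 := Finset.card_union_le (((Z + B + C') \ F).filter (· ≤ n))
        (((((Z + B) \ (W + B)) \ E).filter (· ≤ n)).image (fun y => y + c))
      have h7 : (((((Z + B) \ (W + B)) \ E).filter (· ≤ n)).image (fun y => y + c)).card ≤
        ((((Z + B) \ (W + B)) \ E).filter (· ≤ n)).card := Finset.card_image_le
      have h8 := h1 W hWZ
      have h9 : ((((Z + B + insert c C') \ F).filter (· ≤ n)).card : ℝ) ≤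
        ((((Z + B + C') \ F).filter (· ≤ n)).card : ℝ) +
          (((((Z + B) \ (W + B)) \ E).filter (· ≤ n)).card : ℝ) := by
        exact_mod_cast (h5.trans h6).trans (Nat.add_le_add_left h7 _)
      linarith
    have hM : ((((Z + C') \ D).filter (· ≤ n)).card : ℝ) + ((Z \ W).card : ℝ) ≤
        ((((Z + insert c C') \ D).filter (· ≤ n)).card : ℝ) := by
      have h5 : (((Z + C') \ D).filter (· ≤ n)) ∪ (Z \ W).image (fun x => x + c) ⊆
          (((Z + insert c C') \ D).filter (· ≤ n)) := by
        intro y hy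
        rw [Finset.mem_union] at hy
        rw [Finset.mem_filter, Finset.mem_sdiff]
        rcases hy with hy | hy
        · rw [Finset.mem_filter, Finset.mem_sdiff] at hy
          exact ⟨⟨Finset.add_subset_add_left (Finset.subset_insert _ _) hy.1.1, hy.1.2⟩, hy.2⟩
        · obtain ⟨x, hx, rfl⟩ := Finset.mem_image.1 hy
          rw [Finset.mem_sdiff, hW, Finset.mem_filter] at hx
          obtain ⟨hx1, hx2⟩ := hx
          have hx3 : ¬ (x + c ∈ Z + C' ∨ x + c ∈ D ∨ n < x + c) := fun h => hx2 ⟨hx1, h⟩
          push Not at hx3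
          exact ⟨⟨Finset.add_mem_add hx1 (Finset.mem_insert_self _ _), hx3.2.1⟩, hx3.2.2⟩
      have h6 : Disjoint (((Z + C') \ D).filter (· ≤ n)) ((Z \ W).image (fun x => x + c)) := by
        rw [Finset.disjoint_left]
        intro y hy hy'
        rw [Finset.mem_filter, Finset.mem_sdiff] at hy
        obtain ⟨x, hx, rfl⟩ := Finset.mem_image.1 hy'
        rw [Finset.mem_sdiff, hW, Finset.mem_filter] at hx
        exact hx.2 ⟨hx.1, Or.inl hy.1.1⟩
      have h7 := Finset.card_le_card h5
      rw [Finset.card_union_of_disjoint h6, Finset.card_image_of_injective _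
        (fun a b h => Nat.add_right_cancel h)] at h7
      exact_mod_cast h7
    calc ((((Z + B + insert c C') \ F).filter (· ≤ n)).card : ℝ) ≤
        ((((Z + B + C') \ F).filter (· ≤ n)).card : ℝ) + K * ((Z \ W).card : ℝ) := hN2
      _ ≤ K * ((((Z + C') \ D).filter (· ≤ n)).card : ℝ) + K * ((Z \ W).card : ℝ) := by linarith
      _ = K * (((((Z + C') \ D).filter (· ≤ n)).card : ℝ) + ((Z \ W).card : ℝ)) := by ring
      _ ≤ _ := mul_le_mul_of_nonneg_left hM hK

/-- A set `Z ⊆ S` minimising the growth relative to the dead set `E` minus `K |Z|`. -/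
theorem exists_min (n : ℕ) (K : ℝ) (S B E : Finset ℕ) :
    ∃ Z ⊆ S, (∀ W ⊆ Z, (((((Z + B) \ (W + B)) \ E).filter (· ≤ n)).card : ℝ) ≤
        K * ((Z \ W).card : ℝ)) ∧
      ∀ S' ⊆ S \ Z, K * (S'.card : ℝ) ≤
        (((((S' + B) \ (Z + B)) \ E).filter (· ≤ n)).card : ℝ) := by
  classical
  obtain ⟨Z, hZ, hmin⟩ := Finset.exists_min_image S.powerset
    (fun Z => ((((Z + B) \ E).filter (· ≤ n)).card : ℝ) - K * (Z.card : ℝ)) ⟨∅, by simp⟩
  have hZS := Finset.mem_powerset.1 hZ
  refine ⟨Z, hZS, ?_, ?_⟩
  · intro W hW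
    have h1 := hmin W (Finset.mem_powerset.2 (hW.trans hZS))
    have h2 : (((Z + B) \ E).filter (· ≤ n)) =
        (((W + B) \ E).filter (· ≤ n)) ∪ ((((Z + B) \ (W + B)) \ E).filter (· ≤ n)) := by
      ext y
      have h3 : y ∈ W + B → y ∈ Z + B := fun h => Finset.add_subset_add_right hW h
      simp only [Finset.mem_filter, Finset.mem_sdiff, Finset.mem_union]
      tauto
    have h3 : Disjoint (((W + B) \ E).filter (· ≤ n)) ((((Z + B) \ (W + B)) \ E).filter (· ≤ n)) := by
      rw [Finset.disjoint_left]
      intro y hy hy'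
      simp only [Finset.mem_filter, Finset.mem_sdiff] at hy hy'
      exact hy'.1.1.2 hy.1.1
    have h4 : ((((Z + B) \ E).filter (· ≤ n)).card : ℝ) = ((((W + B) \ E).filter (· ≤ n)).card : ℝ) +
        (((((Z + B) \ (W + B)) \ E).filter (· ≤ n)).card : ℝ) := by
      rw [h2, Finset.card_union_of_disjoint h3]
      push_cast
      ring
    have h5 : ((Z \ W).card : ℝ) = (Z.card : ℝ) - (W.card : ℝ) := by
      have := Finset.card_sdiff_add_card_eq_card hW
      have h6 : ((Z \ W).card : ℝ) + (W.card : ℝ) = (Z.card : ℝ) := by exact_mod_cast this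
      linarith
    rw [h5]
    linarith
  · intro S' hS'
    have hd : Disjoint Z S' := by
      rw [Finset.disjoint_left]
      intro y hy hy'
      exact (Finset.mem_sdiff.1 (hS' hy')).2 hy
    have h1 := hmin (Z ∪ S') (Finset.mem_powerset.2 (Finset.union_subset hZS
      (hS'.trans Finset.sdiff_subset)))
    have h2 : (((Z ∪ S' + B) \ E).filter (· ≤ n)) =
        (((Z + B) \ E).filter (· ≤ n)) ∪ ((((S' + B) \ (Z + B)) \ E).filter (· ≤ n)) := by
      rw [Finset.union_add]
      ext y
      simp only [Finset.mem_filter, Finset.mem_sdiff, Finset.mem_union]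
      tauto
    have h3 : Disjoint (((Z + B) \ E).filter (· ≤ n)) ((((S' + B) \ (Z + B)) \ E).filter (· ≤ n)) := by
      rw [Finset.disjoint_left]
      intro y hy hy'
      simp only [Finset.mem_filter, Finset.mem_sdiff] at hy hy'
      exact hy'.1.1.2 hy.1.1
    have h4 : ((((Z ∪ S' + B) \ E).filter (· ≤ n)).card : ℝ) = ((((Z + B) \ E).filter (· ≤ n)).card : ℝ) +
        (((((S' + B) \ (Z + B)) \ E).filter (· ≤ n)).card : ℝ) := by
      rw [h2, Finset.card_union_of_disjoint h3]
      push_cast
      ring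
    have h5 : ((Z ∪ S').card : ℝ) = (Z.card : ℝ) + (S'.card : ℝ) := by
      rw [Finset.card_union_of_disjoint hd]
      push_cast
      ring
    rw [h4, h5] at h1
    linarith

end Pool.Agent.Lib_helper37.RD
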